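import Pool.Agent.P.MP_dcd5d0_pr.NM.Phi

/-! The law of the capped field: stationarity, moments, mean passage times. -/

set_option autoImplicit false

open MeasureTheory Finset Filter
open scoped ENNReal

namespace Pool.Agent.P.MP_dcd5d0_pr.NM

/-- an edge law with three levels -/
structure Fld where
  ν : Measure ℝ
  prob : IsProbabilityMeasure ν
  r1 : ℝ
  r2 : ℝ
  hr0 : 0 ≤ r1
  hr12 : r1 < r2
  hr1 : 0 < ν.real (Set.Iic r1)
  hr2 : ν.real (Set.Iic r2) ≤ 1 / 1024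
  M0 : ℝ
  hM : r2 ≤ M0
  hM' : ν.real (Set.Ioi M0) ≤ 1 / 700

namespace Fld

variable (F : Fld)

instance : IsProbabilityMeasure F.ν := F.prob

lemma r2_pos : 0 < F.r2 := F.hr0.trans_lt F.hr12

lemma M_pos : 0 < F.M0 := F.r2_pos.trans_le F.hM

/-- the law of the capped field -/
noncomputable def Pm : Measure Om := (PP Ed F.ν).map (Phi F.M0)

instance : IsProbabilityMeasure F.Pm :=
  Measure.isProbabilityMeasure_map (Phi_meas _).aemeasurable

lemma mp : MeasurePreserving (Phi F.M0) (PP Ed F.ν) F.Pm := ⟨Phi_meas _, rfl⟩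

lemma Pm_real {A : Set Om} (hA : MeasurableSet A) :
    F.Pm.real A = (PP Ed F.ν).real {ω | Phi F.M0 ω ∈ A} :=
  (congrArg ENNReal.toReal (F.mp.measure_preimage hA.nullMeasurableSet)).symm

lemma sh_mp (z : V) : MeasurePreserving (SC.sh z) F.Pm F.Pm := by
  refine ⟨SC.sh_meas z, ?_⟩
  unfold Pm
  rw [Measure.map_map (SC.sh_meas z) (Phi_meas _),
    show SC.sh z ∘ Phi F.M0 = Phi F.M0 ∘ SC.sh z from funext fun ω => (Phi_sh z ω).symm,
    ← Measure.map_map (Phi_meas _) (SC.sh_meas z), (SC.sh_mp F.ν z).map_eq]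

lemma one_meas (e : Ed) : Measurable (fun ω : Om => max (ω e) 0) :=
  (measurable_pi_apply e).max measurable_const

lemma mom : ∃ K : ℝ, ∀ e : Ed, Integrable (fun ω : Om => max (ω e) 0 ^ 100) F.Pm ∧
    ∫ ω, max (ω e) 0 ^ 100 ∂F.Pm ≤ K := by
  have hM := F.M_pos
  have c0 : ∀ r, 0 ≤ cap F.M0 r := fun r => (hM.trans (lt_cap hM r)).le
  have hs : Summable fun r : ℕ => cap F.M0 (r + 1) ^ 100 * (1 / 2) ^ r := by
    have h1 := (summable_nat_add_iff 1).2
      (summable_pow_mul_geometric_of_norm_lt_one 200 (r := (1 / 2 : ℝ)) (by norm_num))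
    refine Summable.of_nonneg_of_le (fun r => by have := c0 (r + 1); positivity) (fun r => ?_)
      (h1.mul_left (F.M0 ^ 100 * 43 ^ 200 * 2))
    have h2 : cap F.M0 (r + 1) ≤ F.M0 * (43 * ((r + 1 : ℕ) : ℝ)) ^ 2 := by
      have : (0 : ℝ) ≤ r := Nat.cast_nonneg r
      unfold cap; push_cast
      exact mul_le_mul_of_nonneg_left (pow_le_pow_left₀ (by positivity) (by linarith) 2) hM.le
    refine (mul_le_mul_of_nonneg_right (pow_le_pow_left₀ (c0 _) h2 100) (by positivity)).trans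
      (le_of_eq ?_)
    ring
  set B := cap F.M0 0 ^ 100 + ∑' r : ℕ, cap F.M0 (r + 1) ^ 100 * (1 / 2) ^ r with hB
  have t0 : 0 ≤ ∑' r : ℕ, cap F.M0 (r + 1) ^ 100 * (1 / 2) ^ r :=
    tsum_nonneg fun r => by have := c0 (r + 1); positivity
  refine ⟨B, fun e => ?_⟩
  have hm : Measurable fun ω : Om => max (ω e) 0 ^ 100 := (one_meas e).pow_const _
  have key : ∫⁻ ω, ENNReal.ofReal (max (ω e) 0 ^ 100) ∂F.Pm ≤ ENNReal.ofReal B := by
    rw [← F.mp.lintegral_comp hm.ennreal_ofReal]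
    have pt : ∀ ω, ENNReal.ofReal (max (Phi F.M0 ω e) 0 ^ 100) ≤
        ENNReal.ofReal (cap F.M0 0 ^ 100) + ∑' r : ℕ, {ω | Reg F.M0 ω e.1 r}ᶜ.indicator
          (fun _ => ENNReal.ofReal (cap F.M0 (r + 1) ^ 100)) ω := by
      intro ω
      have hex : ∃ r, Phi F.M0 ω e ≤ cap F.M0 r := by
        obtain ⟨r, hr⟩ := exists_nat_ge (Phi F.M0 ω e / F.M0)
        rw [div_le_iff₀' hM] at hr
        have : (0 : ℝ) ≤ r := Nat.cast_nonneg r
        exact ⟨r, hr.trans (mul_le_mul_of_nonneg_left (by nlinarith) hM.le)⟩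
      classical
      have h1 : ENNReal.ofReal (max (Phi F.M0 ω e) 0 ^ 100)
          ≤ ENNReal.ofReal (cap F.M0 (Nat.find hex) ^ 100) := ENNReal.ofReal_le_ofReal
        (pow_le_pow_left₀ (le_max_right _ _) (max_le (Nat.find_spec hex) (c0 _)) _)
      rcases Nat.eq_zero_or_eq_succ_pred (Nat.find hex) with h | h
      · rw [h] at h1; exact h1.trans le_self_add
      · have h2 := Nat.find_min hex (show (Nat.find hex).pred < Nat.find hex by omega)
        rw [h] at h1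
        refine h1.trans (le_trans ?_ le_add_self)
        refine le_trans (le_of_eq ?_) (ENNReal.le_tsum (Nat.find hex).pred)
        rw [Set.indicator_of_mem (show ω ∈ {ω | Reg F.M0 ω e.1 (Nat.find hex).pred}ᶜ from
          fun c => h2 (Phi_cap hM c))]
    refine (lintegral_mono pt).trans ?_
    rw [lintegral_add_left measurable_const, lintegral_const, measure_univ, mul_one,
      lintegral_tsum fun r => (measurable_const.indicator (Reg_meas _ _ r).compl).aemeasurable, hB,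
      ENNReal.ofReal_add (by have := c0 0; positivity) t0,
      ENNReal.ofReal_tsum_of_nonneg (fun r => by have := c0 (r + 1); positivity) hs]
    refine add_le_add le_rfl (ENNReal.tsum_le_tsum fun r => ?_)
    rw [lintegral_indicator_const (Reg_meas _ _ r).compl,
      ENNReal.ofReal_mul (by have := c0 (r + 1); positivity), ← ofReal_measureReal]
    exact mul_le_mul_right (ENNReal.ofReal_le_ofReal (reg_prob F.hM' r e.1)) _
  have nn : 0 ≤ᵐ[F.Pm] fun ω : Om => max (ω e) 0 ^ 100 :=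
    Eventually.of_forall fun ω => pow_nonneg (le_max_right _ _) _
  refine ⟨⟨hm.aestronglyMeasurable, (hasFiniteIntegral_iff_ofReal nn).2
    (key.trans_lt ENNReal.ofReal_lt_top)⟩, ?_⟩
  rw [integral_eq_lintegral_of_nonneg_ae nn hm.aestronglyMeasurable]
  exact ENNReal.toReal_le_of_le_ofReal (by have := c0 0; positivity) key

/-- a bound for the moments of one edge -/
noncomputable def m2 : ℝ := 1 + |F.mom.choose|

noncomputable def m1 : ℝ := 2 * (1 + F.m2)

lemma m2_nonneg : 0 ≤ F.m2 := by unfold m2; positivity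

lemma m1_pos : 0 < F.m1 := by unfold m1; have := F.m2_nonneg; positivity

lemma tail (e : Ed) {t : ℝ} (ht : 0 < t) : F.Pm.real {ω | t ≤ ω e} ≤ F.m2 / t ^ 100 := by
  obtain ⟨h1, h2⟩ := F.mom.choose_spec e
  have := mul_meas_ge_le_integral_of_nonneg
    (Eventually.of_forall fun ω => pow_nonneg (le_max_right _ _) _) h1 (t ^ 100)
  have h3 : F.Pm.real {ω | t ≤ ω e} ≤ F.Pm.real {ω | t ^ 100 ≤ max (ω e) 0 ^ 100} :=
    measureReal_mono fun ω h => pow_le_pow_left₀ ht.le (le_max_of_le_left h) _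
  rw [le_div_iff₀' (by positivity)]
  have h4 := mul_le_mul_of_nonneg_left h3 (show 0 ≤ t ^ 100 by positivity)
  unfold m2
  linarith [le_abs_self F.mom.choose]

lemma edge_sq (e : Ed) : Integrable (fun ω : Om => max (ω e) 0 ^ 2) F.Pm ∧
    ∫ ω, max (ω e) 0 ^ 2 ∂F.Pm ≤ F.m2 := by
  obtain ⟨h1, h2⟩ := F.mom.choose_spec e
  have p : ∀ ω : Om, max (ω e) 0 ^ 2 ≤ 1 + max (ω e) 0 ^ 100 := fun ω => by
    have h0 := le_max_right (ω e) 0
    rcases le_total (max (ω e) 0) 1 with h | h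
    · linarith [pow_le_one₀ (n := 2) h0 h, pow_nonneg h0 100]
    · linarith [pow_le_pow_right₀ h (show 2 ≤ 100 by norm_num)]
  have i2 : Integrable (fun ω : Om => 1 + max (ω e) 0 ^ 100) F.Pm := (integrable_const 1).add h1
  have i1 : Integrable (fun ω : Om => max (ω e) 0 ^ 2) F.Pm :=
    i2.mono' ((one_meas e).pow_const 2).aestronglyMeasurable (Eventually.of_forall fun ω => by
      rw [Real.norm_eq_abs, abs_of_nonneg (sq_nonneg _)]; exact p ω)
  refine ⟨i1, (integral_mono i1 i2 p).trans ?_⟩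
  rw [integral_add (integrable_const 1) h1]
  simp only [integral_const, probReal_univ, smul_eq_mul, mul_one]
  unfold m2
  linarith [le_abs_self F.mom.choose]

lemma sum_sq {ι : Type} (s : Finset ι) (f : ι → Ed) (X : Om → ℝ) (hX : Measurable X)
    (h0 : ∀ ω, 0 ≤ X ω) (hle : ∀ ω, X ω ≤ ∑ j ∈ s, max (ω (f j)) 0) :
    Integrable (fun ω => X ω ^ 2) F.Pm ∧ ∫ ω, X ω ^ 2 ∂F.Pm ≤ s.card ^ 2 * F.m2
      ∧ Integrable X F.Pm ∧ ∫ ω, X ω ∂F.Pm ≤ s.card * (1 + F.m2) := by
  have i0 : Integrable (fun ω : Om => ∑ j ∈ s, max (ω (f j)) 0 ^ 2) F.Pm :=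
    integrable_finsetSum _ fun j _ => (F.edge_sq _).1
  have e0 : ∫ ω, ∑ j ∈ s, max (ω (f j)) 0 ^ 2 ∂F.Pm ≤ s.card * F.m2 := by
    rw [integral_finsetSum _ fun j _ => (F.edge_sq _).1, ← nsmul_eq_mul]
    exact sum_le_card_nsmul _ _ _ fun j _ => (F.edge_sq _).2
  have p1 : ∀ ω, X ω ^ 2 ≤ s.card * ∑ j ∈ s, max (ω (f j)) 0 ^ 2 := fun ω =>
    (pow_le_pow_left₀ (h0 ω) (hle ω) 2).trans sq_sum_le_card_mul_sum_sq
  have p2 : ∀ ω, X ω ≤ s.card + ∑ j ∈ s, max (ω (f j)) 0 ^ 2 := fun ω => by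
    refine (hle ω).trans ?_
    have : (s.card : ℝ) = ∑ _ ∈ s, (1 : ℝ) := by simp
    rw [this, ← sum_add_distrib]
    exact sum_le_sum fun j _ => by nlinarith [sq_nonneg (max (ω (f j)) 0 - 1)]
  have i1 : Integrable (fun ω => X ω ^ 2) F.Pm :=
    Integrable.mono' (i0.const_mul s.card) (hX.pow_const 2).aestronglyMeasurable
      (Filter.Eventually.of_forall fun ω => by
        rw [Real.norm_eq_abs, abs_of_nonneg (sq_nonneg _)]; exact p1 ω)
  have i3 : Integrable (fun ω : Om => s.card + ∑ j ∈ s, max (ω (f j)) 0 ^ 2) F.Pm :=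
    (integrable_const _).add i0
  have i2 : Integrable X F.Pm :=
    Integrable.mono' i3 hX.aestronglyMeasurable
      (Filter.Eventually.of_forall fun ω => by
        rw [Real.norm_eq_abs, abs_of_nonneg (h0 _)]; exact p2 ω)
  refine ⟨i1, ?_, i2, ?_⟩
  · refine (integral_mono i1 (i0.const_mul s.card) p1).trans ?_
    rw [integral_const_mul]
    exact (mul_le_mul_of_nonneg_left e0 (by positivity)).trans (le_of_eq (by ring))
  · refine (integral_mono i2 i3 p2).trans ?_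
    rw [integral_add (integrable_const _) i0]
    simp only [integral_const, probReal_univ, smul_eq_mul, one_mul]
    linarith

lemma dom_sq (X : Om → ℝ) (hX : Measurable X)
    (h0 : ∀ ω, 0 ≤ X ω) (x : V) (σ : ℕ → Dir) (k : ℕ) (hle : ∀ ω, X ω ≤ tm ω x σ 0 k) :
    Integrable (fun ω => X ω ^ 2) F.Pm ∧ ∫ ω, X ω ^ 2 ∂F.Pm ≤ k ^ 2 * F.m2
      ∧ Integrable X F.Pm ∧ ∫ ω, X ω ∂F.Pm ≤ k * (1 + F.m2) := by
  simpa using F.sum_sq (Ico 0 k) (ed x σ) X hX h0 hle

lemma T_sq (x y : V) : Integrable (fun ω => T ω x y ^ 2) F.Pm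
      ∧ ∫ ω, T ω x y ^ 2 ∂F.Pm ≤ 4 * ‖y - x‖ ^ 2 * F.m2
      ∧ Integrable (fun ω => T ω x y) F.Pm ∧ ∫ ω, T ω x y ∂F.Pm ≤ F.m1 * ‖y - x‖ := by
  obtain ⟨k, σ, h, hk⟩ := exists_path x y
  obtain ⟨h1, h2, h3, h4⟩ := F.dom_sq _ (T_meas x y) (fun ω => T_nonneg ω x y) x σ k
    (fun ω => T_le0 ω h)
  have := F.m2_nonneg
  refine ⟨h1, h2.trans ?_, h3, h4.trans ?_⟩
  · have : (k : ℝ) ^ 2 ≤ (2 * ‖y - x‖) ^ 2 := pow_le_pow_left₀ (by positivity) hk 2
    nlinarith
  · unfold m1; nlinarith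

lemma T_int (x y : V) : Integrable (fun ω => T ω x y) F.Pm := (F.T_sq x y).2.2.1

/-- mean passage time of the capped field -/
noncomputable def hh (z : V) : ℝ := ∫ ω, T ω 0 z ∂F.Pm

lemma hh_le (z : V) : F.hh z ≤ F.m1 * ‖z‖ := by
  simpa [hh] using (F.T_sq 0 z).2.2.2

lemma hh_nonneg (z : V) : 0 ≤ F.hh z := integral_nonneg fun ω => T_nonneg ω 0 z

lemma int_T (x y : V) : ∫ ω, T ω x y ∂F.Pm = F.hh (y - x) := by
  unfold hh
  conv_rhs => rw [← (F.sh_mp x).map_eq]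
  rw [integral_map (SC.sh_meas x).aemeasurable (T_meas _ _).aestronglyMeasurable]
  simp [SC.T_sh]

lemma hh_add (z z' : V) : F.hh (z + z') ≤ F.hh z + F.hh z' := by
  have h1 := F.int_T z (z + z')
  rw [add_sub_cancel_left] at h1
  rw [← h1]
  unfold hh
  rw [← integral_add (F.T_int _ _) (F.T_int _ _)]
  exact integral_mono (F.T_int _ _) ((F.T_int _ _).add (F.T_int _ _)) fun ω => T_tri ω _ _ _

lemma hh_lip (z z' : V) : F.hh z ≤ F.hh z' + F.m1 * ‖z - z'‖ := by
  have := F.hh_add z' (z - z')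
  rw [add_sub_cancel] at this
  linarith [F.hh_le (z - z')]

lemma BadP_meas (r : ℝ) (x : V) (n : ℕ) : MeasurableSet (BadP r x n) := by
  have : BadP r x n = ⋃ l : List Dir, ⋃ _ : Set.InjOn (ed x (st l)) (Set.Iio n),
      {ω | 2 * ∑ j ∈ range n, (if r < ω (ed x (st l) j) then 1 else 0) ≤ n} := by
    ext ω
    simp only [BadP, Set.mem_iUnion, Set.mem_ofPred_eq, card_filter]
    constructor
    · rintro ⟨σ, h1, h2⟩
      obtain ⟨l, rfl, hl⟩ := exists_list σ n
      refine ⟨l, injOn_congr hl h1, ?_⟩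
      rwa [sum_congr rfl fun j hj => by rw [ed_congr x hl (mem_range.1 hj)]]
    · rintro ⟨l, h1, h2⟩
      exact ⟨_, h1, h2⟩
  rw [this]
  exact MeasurableSet.iUnion fun l => MeasurableSet.iUnion fun _ => measurableSet_le
    ((Finset.measurable_sum _ fun j _ => Measurable.ite (measurableSet_lt measurable_const
      (measurable_pi_apply _)) measurable_const measurable_const).const_mul 2) measurable_const

lemma BadP_iff {r : ℝ} {ω ω' : Om} (h : ∀ e, r < ω e ↔ r < ω' e) (x : V) (n : ℕ) :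
    ω ∈ BadP r x n ↔ ω' ∈ BadP r x n := by
  simp only [BadP, Set.mem_ofPred_eq, h]

lemma peierls (x : V) (n : ℕ) : F.Pm.real (BadP F.r2 x n) ≤ Real.exp (-n) := by
  rw [F.Pm_real (BadP_meas _ _ _)]
  simp only [BadP_iff (lt_Phi F.M_pos F.hM)]
  exact MP_dcd5d0_pr.peierls F.hr2 x n

lemma BadQ_real (R n : ℕ) : F.Pm.real (BadQ F.r2 R n) = (PP Ed F.ν).real (BadQ F.r2 R n) := by
  rw [F.Pm_real]
  · simp only [BadQ, Set.mem_ofPred_eq, BadP_iff (lt_Phi F.M_pos F.hM)]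
  · unfold BadQ
    simp only [Set.ofPred_exists]
    exact MeasurableSet.iUnion fun x => measurableSet_setOfPred.2
      (measurable_const.and (measurableSet_setOfPred.1 (BadP_meas _ x n)))

end Fld

end Pool.Agent.P.MP_dcd5d0_pr.NM
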