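import Pool.Agent.P.MP_dcd5d0_pr.NM.Walk

/-! White crossings, frames, hubs and the regularised position `hat`. Deterministic part. -/

set_option autoImplicit false

open Finset

namespace Pool.Agent.P.MP_dcd5d0_pr.NM

variable {M : ℝ} {ω : Om}

/-- white crossing of a rectangle in the coordinate `i` -/
def Cr (M : ℝ) (ω : Om) (i : Fin 2) (a b c d : ℤ) : Prop :=
  ∃ x y : V, x i = a ∧ y i = b ∧ Wk M ω (Rect i a b c d) x y

lemma Cr.cut {i : Fin 2} {a b b' c d : ℤ} (h : Cr M ω i a b c d) (h1 : a ≤ b') (h2 : b' ≤ b) :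
    Cr M ω i a b' c d := by
  obtain ⟨x, y, hx, hy, k, σ, e1, e2, e3⟩ := h
  rcases eq_or_lt_of_le h1 with h3 | h3
  · have := e2 0 (Nat.zero_le _)
    rw [pos_zero] at this
    exact ⟨x, x, hx, by omega, Wk.refl ⟨by omega, by omega, this.2.2.1, this.2.2.2⟩⟩
  · obtain ⟨j, hj, f1, f2⟩ := first_exit (U := {z : V | z i < b'}) (x := x) (σ := σ) (k := k)
      (by show x i < b'; omega) (by show ¬ pos x σ k i < b'; rw [e1]; omega)
    have g1 : pos x σ j i < b' := f1 j le_rfl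
    have g2 : ¬ pos x σ (j + 1) i < b' := f2
    have g3 := pos_step x σ j i
    refine ⟨x, pos x σ (j + 1), hx, by omega, Wk.init (fun l hl => ?_) fun l hl => e3 l (by omega)⟩
    have g4 := e2 l (by omega)
    refine ⟨g4.1, ?_, g4.2.2.1, g4.2.2.2⟩
    rcases eq_or_lt_of_le hl with rfl | h5
    · omega
    · exact (show pos x σ l i < b' from f1 l (by omega)).le

/-- two long crossings joined by a transversal one -/
lemma glue2 {i : Fin 2} {a b a' b' c d e f : ℤ} {x y x' y' : V} (h : Wk M ω (Rect i a b c d) x y)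
    (hx : x i = a) (hy : y i = b) (h' : Wk M ω (Rect i a' b' c d) x' y') (hx' : x' i = a')
    (hy' : y' i = b') (hv : Cr M ω (ot i) c d e f) (h1 : a ≤ a') (h2 : a' ≤ e) (h3 : f ≤ b)
    (h4 : b ≤ b') : Wk M ω (Rect i a b' c d) x y' := by
  obtain ⟨p, q, hp, hq, k, σ, e1, e2, e3⟩ := hv
  have e4 : ∀ l ≤ k, c ≤ pos p σ l (ot i) ∧ pos p σ l (ot i) ≤ d ∧ e ≤ pos p σ l i ∧ pos p σ l i ≤ f := by
    intro l hl
    have := e2 l hl
    simpa only [Rect, ot_ot, Set.mem_ofPred_eq] using this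
  obtain ⟨j, hj, g1⟩ := meet h hx hy p σ k (fun l hl => by have := e4 l hl; omega)
    (Or.inl ⟨hp.le, by rw [e1]; exact hq.ge⟩)
  obtain ⟨j', hj', g2⟩ := meet h' hx' hy' p σ k (fun l hl => by have := e4 l hl; omega)
    (Or.inl ⟨hp.le, by rw [e1]; exact hq.ge⟩)
  have s1 : Rect i a b c d ⊆ Rect i a b' c d := fun z hz => ⟨hz.1, hz.2.1.trans h4, hz.2.2⟩
  have s2 : Rect i a' b' c d ⊆ Rect i a b' c d := fun z hz => ⟨h1.trans hz.1, hz.2⟩
  have s3 : ∀ j ≤ k, Wk M ω (Rect i a b' c d) p (pos p σ j) := fun j hj =>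
    Wk.init (fun l hl => by have := e4 l (by omega); exact ⟨by omega, by omega, by omega, by omega⟩)
      fun l hl => e3 l (by omega)
  exact (g1.mono s1).trans ((s3 j hj).symm.trans ((s3 j' hj').trans
    ((g2.mono s2).symm.trans (h'.mono s2))))

lemma Cr.glue {i : Fin 2} {a c s : ℤ} (hs : 1 ≤ s) (h1 : Cr M ω i a (a + 14 * s) c (c + s - 1))
    (h2 : Cr M ω i (a + 7 * s) (a + 21 * s) c (c + s - 1))
    (h3 : Cr M ω i (a + 14 * s) (a + 28 * s) c (c + s - 1))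
    (v1 : Cr M ω (ot i) c (c + s - 1) (a + 8 * s) (a + 9 * s - 1))
    (v2 : Cr M ω (ot i) c (c + s - 1) (a + 15 * s) (a + 16 * s - 1)) :
    Cr M ω i a (a + 28 * s) c (c + s - 1) := by
  obtain ⟨x1, y1, a1, b1, w1⟩ := h1
  obtain ⟨x2, y2, a2, b2, w2⟩ := h2
  obtain ⟨x3, y3, a3, b3, w3⟩ := h3
  have g1 := glue2 w1 a1 b1 w2 a2 b2 v1 (by omega) (by omega) (by omega) (by omega)
  exact ⟨x1, y3, a1, b3, glue2 g1 a1 b2 w3 a3 b3 v2 (by omega) (by omega) (by omega) (by omega)⟩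

lemma Cr.wide {i : Fin 2} {a b c d c' d' : ℤ} (h : Cr M ω i a b c d) (h1 : c' ≤ c) (h2 : d ≤ d') :
    Cr M ω i a b c' d' := by
  obtain ⟨x, y, hx, hy, w⟩ := h
  exact ⟨x, y, hx, hy, w.mono fun z hz => ⟨hz.1, hz.2.1, h1.trans hz.2.2.1, hz.2.2.2.trans h2⟩⟩

/-- the box of radius `R` around `x` -/
def bx (x : V) (R : ℤ) : Set V := {z | ∀ i, x i - R ≤ z i ∧ z i ≤ x i + R}

lemma bx_mono (x : V) {R R' : ℤ} (h : R ≤ R') : bx x R ⊆ bx x R' :=
  fun _ hz i => by have := hz i; omega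

lemma mem_bx2 (i : Fin 2) {x z : V} {R : ℤ} : z ∈ bx x R ↔ (x i - R ≤ z i ∧ z i ≤ x i + R) ∧
    (x (ot i) - R ≤ z (ot i) ∧ z (ot i) ≤ x (ot i) + R) := by
  unfold bx
  simp only [Set.mem_ofPred_eq, Fin.forall_fin_two]
  fin_cases i
  · rfl
  · exact and_comm

lemma mem_bx {x z : V} {R : ℕ} : z ∈ bx x R ↔ ‖z - x‖ ≤ R := by
  rw [pi_norm_le_iff_of_nonneg (by positivity)]
  refine forall_congr' fun i => ?_
  rw [Int.norm_eq_abs, Pi.sub_apply, ← Int.cast_abs, ← Int.cast_natCast (R := ℝ), Int.cast_le, abs_le]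
  omega

lemma bx_self (x : V) {R : ℤ} (h : 0 ≤ R) : x ∈ bx x R := fun i => by omega

lemma bx_trans {x y z : V} {R R' : ℤ} (h : y ∈ bx x R) (h' : z ∈ bx y R') : z ∈ bx x (R + R') :=
  fun i => by have := h i; have := h' i; omega

lemma bx_symm {x y : V} {R : ℤ} (h : y ∈ bx x R) : x ∈ bx y R := fun i => by have := h i; omega

lemma bx_step {x p : V} {σ : ℕ → Dir} {j : ℕ} {R : ℤ} (h : pos p σ j ∈ bx x R) :
    pos p σ (j + 1) ∈ bx x (R + 1) := fun i => by have := h i; have := pos_step p σ j i; omega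

lemma Wk.jn_bx {x a b : V} {R : ℕ} (h : Wk M ω (bx x R) a b) (hM : 0 ≤ M) :
    Jn ω (bx x R) a b (M * (2 * R + 1) ^ 2) := by
  classical
  have := h.short (S := (box R).image (· + x)) (fun z hz =>
    mem_image.2 ⟨z - x, mem_box.2 (mem_bx.1 hz), by simp⟩) hM
  refine this.mono subset_rfl (mul_le_mul_of_nonneg_left ?_ hM)
  rw [← card_box]; exact_mod_cast card_image_le

/-- four white crossings around `x` at scale `s` -/
def Frame (M : ℝ) (ω : Om) (x : V) (s : ℤ) : Prop := ∀ i : Fin 2,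
  Cr M ω i (x i - 7 * s) (x i + 7 * s) (x (ot i) + s + 1) (x (ot i) + 2 * s) ∧
  Cr M ω i (x i - 7 * s) (x i + 7 * s) (x (ot i) - 2 * s) (x (ot i) - s - 1)

/-- `o` is joined to every walk leaving the neighbourhood of `x` -/
def Hub (M : ℝ) (ω : Om) (x : V) (s : ℤ) (o : V) : Prop :=
  o ∉ bx x (4 * s) ∧ (∃ y ∈ bx x (2 * s), Wk M ω (bx x (7 * s)) o y) ∧
    ∀ (p : V) (σ : ℕ → Dir) (k : ℕ), p ∈ bx x s → pos p σ k ∉ bx x (2 * s) →
      ∃ j ≤ k, Wk M ω (bx x (7 * s)) o (pos p σ j)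

lemma Frame.hub {x : V} {s : ℤ} (hs : 1 ≤ s) (h : Frame M ω x s) : ∃ o, Hub M ω x s o := by
  have hR : ∀ (i : Fin 2) (c d : ℤ), x (ot i) - 2 * s ≤ c → d ≤ x (ot i) + 2 * s →
      Rect i (x i - 7 * s) (x i + 7 * s) c d ⊆ bx x (7 * s) := by
    intro i c d h1 h2 z hz
    obtain ⟨z1, z2, z3, z4⟩ := hz
    rw [mem_bx2 i]; omega
  have con : ∀ (i : Fin 2) (c d c' d' : ℤ) (p q p' q' : V), x (ot i) - 2 * s ≤ c → d ≤ x (ot i) + 2 * s →
      x i - 2 * s ≤ c' → d' ≤ x i + 2 * s → p i = x i - 7 * s → q i = x i + 7 * s →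
      Wk M ω (Rect i (x i - 7 * s) (x i + 7 * s) c d) p q →
      p' (ot i) = x (ot i) - 7 * s → q' (ot i) = x (ot i) + 7 * s →
      Wk M ω (Rect (ot i) (x (ot i) - 7 * s) (x (ot i) + 7 * s) c' d') p' q' →
      ∃ y ∈ bx x (2 * s), Wk M ω (bx x (7 * s)) p y ∧ Wk M ω (bx x (7 * s)) p' y := by
    intro i c d c' d' p q p' q' h1 h2 h3 h4 hp hq w hp' hq' w'
    obtain ⟨k, σ, e1, e2, e3⟩ := w'
    have e4 : ∀ l ≤ k, c' ≤ pos p' σ l i ∧ pos p' σ l i ≤ d' := by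
      intro l hl
      have := (e2 l hl).2.2
      rwa [ot_ot] at this
    obtain ⟨j, hj, g⟩ := meet w hp hq p' σ k (fun l hl => by have := e4 l hl; omega)
      (Or.inl ⟨by omega, by rw [e1]; omega⟩)
    refine ⟨pos p' σ j, ?_, g.mono (hR i c d h1 h2), Wk.init (fun l hl => ?_) fun l hl => e3 l (by omega)⟩
    · obtain ⟨z1, z2, z3, z4⟩ := g.right
      have := e4 j hj
      rw [mem_bx2 i]; omega
    · exact hR (ot i) c' d' (by rwa [ot_ot]) (by rwa [ot_ot]) (e2 l (by omega))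
  obtain ⟨⟨p1, q1, a1, b1, w1⟩, ⟨p2, q2, a2, b2, w2⟩⟩ := h 0
  obtain ⟨⟨p3, q3, a3, b3, w3⟩, ⟨p4, q4, a4, b4, w4⟩⟩ := h 1
  simp only [ot_zero, ot_one] at w1 w2 w3 w4
  obtain ⟨y13, m13, c13, d13⟩ := con 0 _ _ _ _ p1 q1 p3 q3 (by simp only [ot_zero]; omega)
    (by simp only [ot_zero]; omega) (by omega) (by omega) a1 b1 w1 a3 b3 w3
  obtain ⟨y14, _, c14, d14⟩ := con 0 _ _ _ _ p1 q1 p4 q4 (by simp only [ot_zero]; omega)
    (by simp only [ot_zero]; omega) (by omega) (by omega) a1 b1 w1 a4 b4 w4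
  obtain ⟨y23, _, c23, d23⟩ := con 0 _ _ _ _ p2 q2 p3 q3 (by simp only [ot_zero]; omega)
    (by simp only [ot_zero]; omega) (by omega) (by omega) a2 b2 w2 a3 b3 w3
  have o3 := c13.trans d13.symm
  have o4 := c14.trans d14.symm
  have o2 := o3.trans (d23.trans c23.symm)
  refine ⟨p1, fun hc => by have := hc 0; omega, ⟨y13, m13, c13⟩, fun p σ k hp hk => ?_⟩
  obtain ⟨j, hj, f1, f2⟩ := first_exit (bx_mono x (by omega) hp) hk
  have f3 : ∀ l ≤ j + 1, pos p σ l ∈ bx x (2 * s + 1) := by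
    intro l hl
    rcases eq_or_lt_of_le hl with rfl | h5
    · exact bx_step (f1 j le_rfl)
    · exact bx_mono x (by omega) (f1 l (by omega))
  have p0 := hp 0
  have p1' := hp 1
  rw [mem_bx2 0, ot_zero] at f2
  by_cases c1 : x 1 + 2 * s < pos p σ (j + 1) 1
  · obtain ⟨l, hl, g⟩ := meet w1 a1 b1 p σ (j + 1) (fun l hl => by have := f3 l hl 0; omega)
      (Or.inl ⟨by simp only [ot_zero]; omega, by simp only [ot_zero]; omega⟩)
    exact ⟨l, by omega, g.mono (hR 0 _ _ (by simp only [ot_zero]; omega) (by simp only [ot_zero]; omega))⟩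
  by_cases c2 : pos p σ (j + 1) 1 < x 1 - 2 * s
  · obtain ⟨l, hl, g⟩ := meet w2 a2 b2 p σ (j + 1) (fun l hl => by have := f3 l hl 0; omega)
      (Or.inr ⟨by simp only [ot_zero]; omega, by simp only [ot_zero]; omega⟩)
    exact ⟨l, by omega, o2.trans
      (g.mono (hR 0 _ _ (by simp only [ot_zero]; omega) (by simp only [ot_zero]; omega)))⟩
  by_cases c3 : x 0 + 2 * s < pos p σ (j + 1) 0
  · obtain ⟨l, hl, g⟩ := meet w3 a3 b3 p σ (j + 1) (fun l hl => by have := f3 l hl 1; omega)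
      (Or.inl ⟨by simp only [ot_one]; omega, by simp only [ot_one]; omega⟩)
    exact ⟨l, by omega, o3.trans
      (g.mono (hR 1 _ _ (by simp only [ot_one]; omega) (by simp only [ot_one]; omega)))⟩
  · obtain ⟨l, hl, g⟩ := meet w4 a4 b4 p σ (j + 1) (fun l hl => by have := f3 l hl 1; omega)
      (Or.inr ⟨by simp only [ot_one]; omega, by simp only [ot_one]; omega⟩)
    exact ⟨l, by omega, o4.trans
      (g.mono (hR 1 _ _ (by simp only [ot_one]; omega) (by simp only [ot_one]; omega)))⟩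

lemma Hub.next {x o o' : V} {s : ℤ} (hs : 1 ≤ s) (h : Hub M ω x s o) (h' : Hub M ω x (2 * s) o') :
    Wk M ω Set.univ o o' := by
  obtain ⟨y, hy, w⟩ := h.2.1
  obtain ⟨k, σ, e1, _, e3⟩ := w.symm
  obtain ⟨j, hj, g⟩ := h'.2.2 y σ k hy (by rw [e1, ← mul_assoc]; exact h.1)
  exact ((w.mono (Set.subset_univ _)).trans (Wk.init (fun _ _ => trivial)
    fun l hl => e3 l (by omega))).trans (g.mono (Set.subset_univ _)).symm

/-- frames at all dyadic scales from `r` on -/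
def Reg (M : ℝ) (ω : Om) (x : V) (r : ℕ) : Prop := ∀ k : ℕ, r ≤ 2 ^ k → Frame M ω x (2 ^ k)

lemma Reg.mono {x : V} {r r' : ℕ} (h : Reg M ω x r) (hr : r ≤ r') : Reg M ω x r' :=
  fun k hk => h k (hr.trans hk)

/-- white walks to arbitrarily distant points -/
def Good (M : ℝ) (ω : Om) (o : V) : Prop := ∀ n : ℕ, ∃ y, y ∉ bx o n ∧ Wk M ω Set.univ o y

lemma Hub.mem {x o : V} {s : ℤ} (h : Hub M ω x s o) : o ∈ bx x (7 * s) := by
  obtain ⟨y, _, w⟩ := h.2.1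
  exact w.left

lemma Reg.good {x o : V} {r k : ℕ} (h : Reg M ω x r) (hk : r ≤ 2 ^ k) (ho : Hub M ω x (2 ^ k) o) :
    Good M ω o := by
  have one : ∀ k : ℕ, (1 : ℤ) ≤ 2 ^ k := fun k => one_le_pow₀ (by norm_num)
  have key : ∀ d : ℕ, ∃ o', Hub M ω x (2 ^ (k + d)) o' ∧ Wk M ω Set.univ o o' := by
    intro d
    induction d with
    | zero => exact ⟨o, ho, Wk.refl trivial⟩
    | succ d ih =>
      obtain ⟨o', h1, h2⟩ := ih
      obtain ⟨o2, h3⟩ := (h (k + (d + 1)) (hk.trans (Nat.pow_le_pow_right (by norm_num) (by omega)))).hub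
        (one _)
      refine ⟨o2, h3, h2.trans (h1.next (one _) ?_)⟩
      rwa [← add_assoc, pow_succ, mul_comm] at h3
  intro n
  obtain ⟨o', h1, h2⟩ := key (n + 1)
  refine ⟨o', fun hc => h1.1 (bx_mono x ?_ (bx_trans ho.mem hc)), h2⟩
  have e1 : (n : ℤ) < 2 ^ n := by exact_mod_cast Nat.lt_two_pow_self
  have e2 := one k
  have e3 := one n
  rw [pow_add, pow_succ]
  nlinarith

lemma Hub.link {x o z : V} {s : ℕ} (hs : 1 ≤ s) (h : Hub M ω x s o) (hz : Good M ω z)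
    (hm : z ∈ bx x s) : Wk M ω (bx x (7 * s)) o z := by
  obtain ⟨y, hy, k, σ, e1, _, e3⟩ := hz (3 * s)
  have hk : pos z σ k ∉ bx x (2 * s) := by
    rw [e1]; intro hc
    refine hy (bx_mono z (by push_cast; omega) (bx_trans (bx_symm hm) hc))
  obtain ⟨j, hj, f1, f2⟩ := first_exit (bx_mono x (by omega) hm) hk
  obtain ⟨l, hl, g⟩ := h.2.2 z σ (j + 1) hm f2
  refine g.trans (Wk.init (fun l' hl' => ?_) fun l' hl' => e3 l' (by omega)).symm
  rcases eq_or_lt_of_le (hl'.trans hl) with rfl | h5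
  · exact bx_mono x (by omega) (bx_step (f1 j le_rfl))
  · exact bx_mono x (by omega) (f1 l' (by omega))

end Pool.Agent.P.MP_dcd5d0_pr.NM
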