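import Pool.Agent.P.MP_dcd5d0_pr.NM.G3

/-! Exact independence for the capped field, and transfer of local variables. -/

set_option autoImplicit false

open MeasureTheory ProbabilityTheory Finset Filter

namespace Pool.Agent.P.MP_dcd5d0_pr.NM

lemma Psi_loc {M : ℝ} (hM : 0 < M) (s : ℕ) {ω ω' : Om} {e : Ed}
    (h : ∀ e' : Ed, ‖e'.1 - e.1‖ ≤ 7 * s → ω e' = ω' e') : Psi M s ω e = Psi M s ω' e := by
  have h0 := h e (by rw [sub_self, norm_zero]; positivity)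
  have h1 : ∀ e' : Ed, e'.1 ∈ bx e.1 (7 * s) → ω e' = ω' e' := fun e' he =>
    h e' (by exact_mod_cast mem_bx.1 (show e'.1 ∈ bx e.1 ((7 * s : ℕ) : ℤ) by exact_mod_cast he))
  exact le_antisymm (Psi_mono hM s e h0.le fun e' he => (h1 e' he).le)
    (Psi_mono hM s e h0.ge fun e' he => (h1 e' he).ge)

/-- the edges based in a ball -/
noncomputable def EB (c : V) (R : ℕ) : Finset Ed := ((box R).image (· + c)) ×ˢ univ

lemma mem_EB {c : V} {R : ℕ} {e : Ed} (h : ‖e.1 - c‖ ≤ R) : e ∈ EB c R :=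
  mem_product.2 ⟨mem_image.2 ⟨e.1 - c, mem_box.2 h, by simp⟩, mem_univ _⟩

lemma card_EB (c : V) (R : ℕ) : ((EB c R).card : ℝ) ≤ 2 * (2 * R + 1) ^ 2 := by
  have : (((box R).image (· + c)).card : ℝ) ≤ (box R).card := by exact_mod_cast card_image_le
  rw [card_box] at this
  simp only [EB, card_product, card_univ, Fintype.card_fin, Nat.cast_mul, Nat.cast_ofNat]
  linarith

lemma tm_le_W {ω : Om} {x : V} {σ : ℕ → Dir} {a b : ℕ} {B : Finset Ed}
    (h : Set.InjOn (ed x σ) (Ico a b : Finset ℕ)) (hB : ∀ j ∈ Ico a b, ed x σ j ∈ B) :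
    tm ω x σ a b ≤ ∑ e ∈ B, max (ω e) 0 := by
  unfold tm
  rw [← sum_image (f := fun e => max (ω e) 0) h]
  exact sum_le_sum_of_subset_of_nonneg (fun e he => by
    obtain ⟨j, hj, rfl⟩ := mem_image.1 he; exact hB j hj) fun _ _ _ => le_max_right _ _

lemma Pi_le_W {cl : SC.Cl} (h : cl.NE) {c : V} {R : ℕ} (hA : ∀ z ∈ cl.A, ‖z - c‖ ≤ R)
    (hR : ∀ p q, cl.R p q → ‖p - c‖ ≤ R ∧ ‖q - c‖ ≤ R) (ζ : V) (ω : Om) :
    SC.Pi cl ζ ω ≤ 6 * ∑ e ∈ EB c R, max (ω e) 0 := by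
  obtain ⟨p, q, t, h1, σ, k, h2, rfl, -⟩ := h
  have all := SC.all_mem (S := {z | ‖z - c‖ ≤ R}) (fun j a b => hA _ (h2 j a b)) (hR _ _ h1).1
    (hR _ _ h1).2
  have W0 : 0 ≤ ∑ e ∈ EB c R, max (ω e) 0 := sum_nonneg fun _ _ => le_max_right _ _
  have one : ∀ a b, b ≤ k → b ≤ a + 1 → tm ω p σ a b ≤ ∑ e ∈ EB c R, max (ω e) 0 :=
    fun a b h h' => tm_le_W (fun i hi j hj _ => by
      simp only [coe_Ico, Set.mem_Ico] at hi hj; omega)
      fun j hj => mem_EB (SC.ed_mem all (by have := mem_Ico.1 hj; omega))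
  have : ∃ t, SC.Wk ω cl.A p (pos p σ k) t ∧ t ≤ 3 * ∑ e ∈ EB c R, max (ω e) 0 := by
    rcases le_or_gt k 1 with a | a
    · exact ⟨_, ⟨σ, k, h2, rfl, rfl⟩, by linarith [one 0 k le_rfl (by omega)]⟩
    · have w1 := SC.Wk.idx (A := cl.A) ω p σ (Nat.zero_le 1) (fun j a b => by omega)
      have w2 := SC.Wk.idx (A := cl.A) ω p σ (show 1 ≤ k - 1 by omega)
        (fun j a b => h2 j (by omega) (by omega))
      have w3 := SC.Wk.idx (A := cl.A) ω p σ (show k - 1 ≤ k by omega) (fun j a b => by omega)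
      have m1 := h2 1 one_pos a
      have m2 := h2 (k - 1) (by omega) (by omega)
      obtain ⟨σ', k', e1, e2, e3, -⟩ := w2.trail m1 m2
      have w4 : SC.Wk ω cl.A (pos p σ 1) (pos p σ (k - 1)) _ :=
        ⟨σ', k', fun j _ b => e3 j b.le, e1, rfl⟩
      have t4 := tm_le_W (ω := ω) (a := 0) (b := k') (B := EB c R)
        (e2.mono fun j hj => (mem_Ico.1 (mem_coe.1 hj)).2)
        fun j hj => mem_EB (hA _ (SC.ed_mem e3 (mem_Ico.1 hj).2))
      rw [pos_zero] at w1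
      exact ⟨_, (w1.trans m1 w4).trans m2 w3, by
        linarith [one 0 1 a.le le_rfl, one (k - 1) k le_rfl (by omega)]⟩
  obtain ⟨t, w, ht⟩ := this
  have e1 := SC.Pi_le h1 (w.pw ζ)
  linarith [w.T_le, T_tri ω (pos p σ k) p ζ, T_symm ω (pos p σ k) p]

lemma half_le (s : ℕ) {a : ℝ} (h : a ≤ s + 1) : (1 / 2 : ℝ) ^ s ≤ 2 * Real.exp (-(a / 2)) := by
  have h1 : (1 / 2 : ℝ) ≤ Real.exp (-(1 / 2)) := by linarith [Real.add_one_le_exp (-(1 / 2))]
  have h2 := pow_le_pow_left₀ (by norm_num) h1 (s + 1)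
  rw [← Real.exp_nat_mul, pow_succ] at h2
  have h3 : Real.exp (((s + 1 : ℕ) : ℝ) * -(1 / 2)) ≤ Real.exp (-(a / 2)) := by
    rw [Real.exp_le_exp]; push_cast; linarith
  linarith

namespace Fld

variable (F : Fld)

/-- local, and unchanged by the capping -/
def Loc {β : Type} (S : Set V) (f : Om → β) : Prop := ∀ ω ω' : Om,
  ((∀ e : Ed, e.1 ∈ S → ω e = ω' e) ∨ ω' = Phi F.M0 ω) → f ω = f ω'

variable {F}

lemma Loc.mono {β : Type} {S S' : Set V} {f : Om → β} (h : F.Loc S f) (hS : S ⊆ S') :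
    F.Loc S' f := fun ω ω' e => h ω ω' (e.imp_left fun a x hx => a x (hS hx))

lemma Loc.real {S : Set V} {A : Set Om} (h : F.Loc S (· ∈ A)) (hm : MeasurableSet A) :
    F.Pm.real A = (PP Ed F.ν).real A := by
  rw [F.Pm_real hm]
  congr 1
  ext ω
  exact (h ω _ (Or.inr rfl)).symm.to_iff

lemma Loc.indep {S S' : Set V} (hS : Disjoint S S')
    {β β' : Type} [MeasurableSpace β] [MeasurableSpace β'] {f : Om → β} {f' : Om → β'}
    (hm : Measurable f) (hm' : Measurable f') (h : F.Loc S f) (h' : F.Loc S' f') :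
    IndepFun f f' F.Pm := by
  have := SC.Loc.indep (ν := F.ν) hS hm hm' (fun _ _ e => h _ _ (Or.inl e))
    (fun _ _ e => h' _ _ (Or.inl e))
  rw [indepFun_iff_measure_inter_preimage_eq_mul] at this ⊢
  intro s t hs ht
  have e : Phi F.M0 ⁻¹' (f ⁻¹' s) = f ⁻¹' s := by
    ext ω; simp only [Set.mem_preimage, ← h ω _ (Or.inr rfl)]
  have e' : Phi F.M0 ⁻¹' (f' ⁻¹' t) = f' ⁻¹' t := by
    ext ω; simp only [Set.mem_preimage, ← h' ω _ (Or.inr rfl)]
  rw [← F.mp.measure_preimage ((hm hs).inter (hm' ht)).nullMeasurableSet,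
    ← F.mp.measure_preimage (hm hs).nullMeasurableSet,
    ← F.mp.measure_preimage (hm' ht).nullMeasurableSet, Set.preimage_inter, e, e']
  exact this s t hs ht

lemma Loc.inter {S S' : Set V} (hS : Disjoint S S')
    {A A' : Set Om} (hm : MeasurableSet A) (hm' : MeasurableSet A') (h : F.Loc S (· ∈ A))
    (h' : F.Loc S' (· ∈ A')) : F.Pm.real (A ∩ A') = F.Pm.real A * F.Pm.real A' := by
  rw [h.real hm, h'.real hm', Loc.real (S := Set.univ) ?_ (hm.inter hm')]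
  · exact SC.Loc.inter hS hm hm' (fun _ _ e => h _ _ (Or.inl e)) (fun _ _ e => h' _ _ (Or.inl e))
  · intro ω ω' e
    simp only [Set.mem_inter_iff, h.mono (Set.subset_univ _) ω ω' e,
      h'.mono (Set.subset_univ _) ω ω' e]

lemma Loc.biInter {ι : Type} (s : Finset ι)
    (S : ι → Set V) (A : ι → Set Om) (hm : ∀ i ∈ s, MeasurableSet (A i))
    (h : ∀ i ∈ s, F.Loc (S i) (· ∈ A i)) (hd : ∀ i ∈ s, ∀ j ∈ s, i ≠ j → Disjoint (S i) (S j))
    {p : ℝ} (hp : ∀ i ∈ s, F.Pm.real (A i) ≤ p) :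
    F.Pm.real {ω | ∀ i ∈ s, ω ∈ A i} ≤ p ^ s.card := by
  rw [Loc.real (S := Set.univ)]
  · exact SC.Loc.biInter s S A hm (fun i hi _ _ e => h i hi _ _ (Or.inl e)) hd
      fun i hi => (h i hi).real (hm i hi) ▸ hp i hi
  · intro ω ω' e
    simp only [Set.mem_ofPred_eq, eq_iff_iff]
    exact forall₂_congr fun i hi => ((h i hi).mono (Set.subset_univ _) ω ω' e).to_iff
  · have : {ω | ∀ i ∈ s, ω ∈ A i} = ⋂ i ∈ s, A i := by ext; simp
    rw [this]
    exact Finset.measurableSet_biInter s hm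

variable (F)

/-- the finite range version differs from the field somewhere in the ball -/
def Dif (c : V) (R s : ℕ) : Set Om := ⋃ e ∈ EB c R, {ω | Psi F.M0 s ω e ≠ ω e}

lemma Dif_meas (c : V) (R s : ℕ) : MeasurableSet (F.Dif c R s) :=
  Finset.measurableSet_biUnion _ fun e _ => (measurableSet_eq_fun
    ((measurable_pi_apply e).comp (Psi_meas _ s)) (measurable_pi_apply e)).compl

lemma Dif_le (c : V) (R s : ℕ) :
    F.Pm.real (F.Dif c R s) ≤ 2 * (2 * R + 1) ^ 2 * (1 / 2) ^ s := by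
  refine (measureReal_biUnion_finset_le _ _).trans
    ((sum_le_card_nsmul _ _ ((1 / 2) ^ s) fun e _ => ?_).trans ?_)
  · rw [F.Pm_real (A := {ω | Psi F.M0 s ω e ≠ ω e}) (measurableSet_eq_fun
      ((measurable_pi_apply e).comp (Psi_meas _ s)) (measurable_pi_apply e)).compl]
    refine le_trans (measureReal_mono ?_ (measure_ne_top _ _)) (reg_prob F.hM' s e.1)
    intro ω hω c
    exact hω (by rw [Psi_Phi F.M_pos, Psi_eq c])
  · rw [nsmul_eq_mul]
    exact mul_le_mul_of_nonneg_right (card_EB c R) (by positivity)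

lemma not_Dif {c : V} {R s : ℕ} {ω : Om} (h : ω ∉ F.Dif c R s) {S : Set V} {D0 : Om → ℝ}
    (hS : ∀ z ∈ S, ‖z - c‖ ≤ R) (hl : SC.Loc S D0) : D0 (Psi F.M0 s ω) = D0 ω :=
  hl _ _ fun e he => by
    by_contra c'
    exact h (Set.mem_biUnion (mem_coe.2 (mem_EB (hS _ he))) c')

lemma loc_Psi (s : ℕ) {S : Set V} {D0 : Om → ℝ} (hl : SC.Loc S D0) :
    F.Loc {z | ∃ z' ∈ S, ‖z - z'‖ ≤ 7 * s} (fun ω => D0 (Psi F.M0 s ω)) := by
  rintro ω ω' (h | rfl)
  · exact hl _ _ fun e he => Psi_loc F.M_pos s fun e' he' => h e' ⟨_, he, he'⟩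
  · simp only [Psi_Phi F.M_pos]

lemma scales {ε A : ℝ} (hε : 0 < ε) (hA : 1 ≤ A) : ∀ᶠ L : ℝ in atTop, ∃ R s : ℕ, A * L ≤ R ∧
    2 * (R : ℝ) + 1 ≤ 5 * A * L ∧ 7 * (s : ℝ) ≤ ε * L ∧
      ∀ c, L ^ 6 * F.Pm.real (F.Dif c R s) ≤ 1 / (2 * L) := by
  filter_upwards [small_exp (200 * A ^ 2) (ε / 14) 1 (by positivity) one_pos 9,
    eventually_ge_atTop 1] with L h1 h2
  have a1 : 1 ≤ A * L := one_le_mul_of_one_le_of_one_le hA h2
  have a2 := Nat.ceil_lt_add_one (a := A * L) (by linarith)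
  have a3 := Nat.floor_le (a := ε * L / 7) (by positivity)
  have a4 := half_le _ (Nat.lt_floor_add_one (ε * L / 7)).le
  refine ⟨⌈A * L⌉₊, ⌊ε * L / 7⌋₊, Nat.le_ceil _, by linarith, by linarith, fun c => ?_⟩
  rw [Real.rpow_one] at h1
  rw [show ε * L / 7 / 2 = ε / 14 * L by ring] at a4
  rw [le_div_iff₀ (by positivity)]
  refine le_trans ?_ h1
  calc _ ≤ L ^ 6 * (2 * (5 * A * L) ^ 2 * (2 * Real.exp (-(ε / 14 * L)))) * (2 * L) := by
        refine mul_le_mul_of_nonneg_right (mul_le_mul_of_nonneg_left ((F.Dif_le _ _ _).trans ?_)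
          (by positivity)) (by positivity)
        gcongr; linarith
    _ = _ := by ring

theorem transfer {ε A : ℝ} (hε : 0 < ε) (hA : 1 ≤ A) : ∀ᶠ L : ℝ in atTop, ∀ c : V,
    ∃ G E : Om → ℝ, Measurable E ∧ Integrable E F.Pm ∧ (∀ ω, 0 ≤ E ω) ∧
      ∫ ω, E ω ∂F.Pm ≤ 1 / L ∧
      (∀ cl : SC.Cl, cl.NE → (∀ z ∈ cl.A, ‖z - c‖ ≤ A * L) →
        (∀ p q, cl.R p q → ‖p - c‖ ≤ A * L ∧ ‖q - c‖ ≤ A * L) → ∀ ζ ω, SC.Pi cl ζ ω ≤ G ω) ∧
      ∀ (S : Set V) (D0 : Om → ℝ), (∀ z ∈ S, ‖z - c‖ ≤ A * L) → Measurable D0 → SC.Loc S D0 →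
        ∃ D : Om → ℝ, Measurable D ∧ F.Loc {z | ∃ z' ∈ S, ‖z - z'‖ ≤ ε * L} D ∧ ∀ ω,
          (∀ x e, 0 ≤ e → x ≤ G ω → x ≤ D0 ω + e → x ≤ D ω + e + E ω) ∧
          ∀ x, 0 ≤ x → D0 ω ≤ x → D ω ≤ x + E ω := by
  have hm := F.m2_nonneg
  filter_upwards [F.scales hε hA, eventually_ge_atTop (180000 * A ^ 4 * F.m2),
    eventually_gt_atTop 0] with L ⟨R, s, r1, r2, r3, r4⟩ h2 L0 c
  set W : Om → ℝ := fun ω => ∑ e ∈ EB c R, max (ω e) 0 with hW
  have mW : Measurable W := Finset.measurable_sum _ fun e _ => one_meas e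
  have W0 : ∀ ω, 0 ≤ W ω := fun ω => sum_nonneg fun _ _ => le_max_right _ _
  obtain ⟨w1, w2, -, -⟩ := F.sum_sq (EB c R) id W mW W0 fun _ => le_rfl
  have B0 : 0 < L ^ 6 := by positivity
  have i1 : Integrable ((F.Dif c R s).indicator fun _ => L ^ 6) F.Pm :=
    (integrable_const _).indicator (F.Dif_meas c R s)
  have i2 : Integrable (fun ω => 36 / L ^ 6 * W ω ^ 2) F.Pm := w1.const_mul _
  have n1 : ∀ ω, 0 ≤ (F.Dif c R s).indicator (fun _ => L ^ 6) ω := fun ω =>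
    Set.indicator_nonneg (fun _ _ => B0.le) ω
  refine ⟨fun ω => 6 * W ω,
    fun ω => (F.Dif c R s).indicator (fun _ => L ^ 6) ω + 36 / L ^ 6 * W ω ^ 2,
    (measurable_const.indicator (F.Dif_meas c R s)).add ((mW.pow_const 2).const_mul _),
    i1.add i2, fun ω => add_nonneg (n1 ω) (by positivity), ?_, fun cl a b d =>
      Pi_le_W a (fun z hz => (b z hz).trans r1)
        fun p q h => ⟨(d p q h).1.trans r1, (d p q h).2.trans r1⟩, fun S D0 hS mD hl => ?_⟩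
  · rw [integral_add i1 i2, integral_indicator_const _ (F.Dif_meas c R s), integral_const_mul,
      smul_eq_mul, mul_comm]
    have a1 : ((EB c R).card : ℝ) ≤ 2 * (5 * A * L) ^ 2 := (card_EB c R).trans (by gcongr)
    have a2 : 36 / L ^ 6 * ∫ ω, W ω ^ 2 ∂F.Pm ≤ 1 / (2 * L) := by
      calc _ ≤ 36 / L ^ 6 * ((2 * (5 * A * L) ^ 2) ^ 2 * F.m2) := by
            refine mul_le_mul_of_nonneg_left (w2.trans ?_) (by positivity)
            gcongr
        _ = 180000 * A ^ 4 * F.m2 / (2 * L * L) := by field_simp; ring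
        _ ≤ L / (2 * L * L) := by gcongr
        _ = _ := by field_simp
    have : 1 / L = 1 / (2 * L) + 1 / (2 * L) := by field_simp; ring
    linarith [r4 c]
  · refine ⟨fun ω => tr (L ^ 6) (D0 (Psi F.M0 s ω)), (tr_meas _).comp (mD.comp (Psi_meas _ s)),
      fun ω ω' h => congrArg _ (((F.loc_Psi s hl).mono ?_) ω ω' h), fun ω => ?_⟩
    · rintro z ⟨z', a, b⟩
      exact ⟨z', a, b.trans r3⟩
    have g : 6 * W ω ≤ L ^ 6 + 36 / L ^ 6 * W ω ^ 2 := by
      rw [div_mul_eq_mul_div, ← sub_le_iff_le_add', le_div_iff₀ B0]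
      nlinarith [sq_nonneg (6 * W ω - L ^ 6), W0 ω]
    have g0 : 0 ≤ 36 / L ^ 6 * W ω ^ 2 := by positivity
    have t0 : 0 ≤ tr (L ^ 6) (D0 (Psi F.M0 s ω)) := le_max_left _ _
    by_cases b : ω ∈ F.Dif c R s
    · simp only [Set.indicator_of_mem b]
      exact ⟨fun x e _ _ _ => by linarith, fun x _ _ => by
        linarith [tr_le B0.le (D0 (Psi F.M0 s ω))]⟩
    · simp only [Set.indicator_of_notMem b, F.not_Dif b (fun z hz => (hS z hz).trans r1) hl]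
      refine ⟨fun x e _ _ _ => ?_, fun x _ _ => ?_⟩
      · have := le_max_right 0 (min (D0 ω) (L ^ 6))
        unfold tr
        rcases le_total (D0 ω) (L ^ 6) with a | a
        · rw [min_eq_left a] at this ⊢; linarith
        · rw [min_eq_right a] at this ⊢; linarith
      · have : tr (L ^ 6) (D0 ω) ≤ x := max_le ‹_› ((min_le_left _ _).trans ‹_›)
        linarith

end Fld

end Pool.Agent.P.MP_dcd5d0_pr.NM
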