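import Pool.Agent.P.MP_dcd5d0_pr.NM.Fld

/-! Uniform lower tail for the capped field, by comparison with a truncated i.i.d. field. -/

set_option autoImplicit false

open MeasureTheory Finset Filter

namespace Pool.Agent.P.MP_dcd5d0_pr.NM

noncomputable def tr (K y : ℝ) : ℝ := max 0 (min y K)

noncomputable def trO (K : ℝ) (ω : Om) : Om := fun e => tr K (ω e)

lemma tr_meas (K : ℝ) : Measurable (tr K) := by unfold tr; fun_prop

lemma tr_le {K : ℝ} (hK : 0 ≤ K) (y : ℝ) : tr K y ≤ K := max_le hK (min_le_right _ _)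

lemma lt_tr {K r : ℝ} (h0 : 0 ≤ r) (h : r < K) (y : ℝ) : r < tr K y ↔ r < y := by
  simp [tr, h, not_lt.2 h0]

section
variable {ν : Measure ℝ} [IsProbabilityMeasure ν]

instance (K : ℝ) : IsProbabilityMeasure (ν.map (tr K)) :=
  Measure.isProbabilityMeasure_map (tr_meas K).aemeasurable

lemma tr_mp (K : ℝ) : MeasurePreserving (trO K) (PP Ed ν) (PP Ed (ν.map (tr K))) :=
  ⟨measurable_pi_lambda _ fun e => (tr_meas K).comp (measurable_pi_apply e),
    Measure.infinitePi_map_pi (μ := fun _ : Ed => ν) (f := fun _ => tr K) fun _ => tr_meas K⟩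

lemma tr_sq {K : ℝ} (hK : 0 ≤ K) :
    Integrable (fun y => y ^ 2) (ν.map (tr K)) ∧ m2 (ν.map (tr K)) ≤ K ^ 2 := by
  have p : ∀ y, tr K y ^ 2 ≤ K ^ 2 := fun y => pow_le_pow_left₀ (le_max_left _ _) (tr_le hK y) 2
  have i : Integrable (fun y => tr K y ^ 2) ν := (integrable_const (K ^ 2)).mono'
    ((tr_meas K).pow_const 2).aestronglyMeasurable (Eventually.of_forall fun y => by
      rw [Real.norm_eq_abs, abs_of_nonneg (sq_nonneg _)]; exact p y)
  refine ⟨(integrable_map_measure (by fun_prop) (tr_meas K).aemeasurable).2 i, ?_⟩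
  unfold m2
  rw [integral_map (tr_meas K).aemeasurable (by fun_prop)]
  simpa using integral_mono i (integrable_const (K ^ 2)) p

omit [IsProbabilityMeasure ν] in
lemma tr_Iic {K r : ℝ} (h0 : 0 ≤ r) (h : r < K) :
    (ν.map (tr K)).real (Set.Iic r) = ν.real (Set.Iic r) := by
  rw [map_measureReal_apply (tr_meas K) measurableSet_Iic]
  congr 1
  ext y
  simp only [Set.mem_preimage, Set.mem_Iic, ← not_lt, lt_tr h0 h]

end

lemma cmp_T {M K : ℝ} (hM : 0 < M) {ρ : ℕ} (hK : cap M ρ ≤ K) {ω : Om} {z z' : V}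
    (h : ∀ y, ‖y - z‖ ≤ 2 * (14 * ρ + 7) ∨ ‖y - z'‖ ≤ 2 * (14 * ρ + 7) → Reg M ω y ρ) :
    T (trO K ω) z z' ≤ T (Phi M ω) z z' + 8 * (14 * ρ + 7) * K := by
  have K0 : 0 ≤ K := (hM.trans (lt_cap hM ρ)).le.trans hK
  obtain ⟨o, g, n⟩ := (h z (Or.inl (by rw [sub_self, norm_zero]; positivity))).near
  obtain ⟨o', g', n'⟩ := (h z' (Or.inr (by rw [sub_self, norm_zero]; positivity))).near
  have a1 := T_len (ω := trO K ω) K0 n fun e _ => tr_le K0 _
  have a2 := T_len (ω := trO K ω) K0 n' fun e _ => tr_le K0 _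
  have a3 := T_len (ω := Phi M ω) K0 n fun e he => (Phi_cap hM (h _ (Or.inl he))).trans hK
  have a4 := T_len (ω := Phi M ω) K0 n' fun e he => (Phi_cap hM (h _ (Or.inr he))).trans hK
  have a5 := (T_le_T (ω := trO K ω) (fun e => max_le (le_max_right _ _)
    ((min_le_left _ _).trans (le_max_left _ _))) o o').trans (bypass hM g g')
  rw [T_symm] at a2 a3
  linarith [T_tri (trO K ω) z o z', T_tri (trO K ω) o o' z', T_tri (Phi M ω) o z o',
    T_tri (Phi M ω) z z' o']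

/-- some point of the box is not regular -/
def Irr (M : ℝ) (R ρ : ℕ) : Set Om := ⋃ y ∈ box R, {ω | Reg M ω y ρ}ᶜ

lemma Irr_meas (M : ℝ) (R ρ : ℕ) : MeasurableSet (Irr M R ρ) :=
  Finset.measurableSet_biUnion _ fun y _ => (Reg_meas M y ρ).compl

lemma not_Irr {M : ℝ} {R ρ : ℕ} {ω : Om} (h : ω ∉ Irr M R ρ) {y : V} (hy : ‖y‖ ≤ R) :
    Reg M ω y ρ := by
  by_contra c
  exact h (Set.mem_biUnion (mem_coe.2 (mem_box.2 hy)) c)

namespace Fld

variable (F : Fld)

lemma Irr_le (R ρ : ℕ) : (PP Ed F.ν).real (Irr F.M0 R ρ) ≤ (2 * R + 1) ^ 2 * (1 / 2) ^ ρ := by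
  refine (measureReal_biUnion_finset_le _ _).trans
    ((sum_le_card_nsmul _ _ _ fun y _ => reg_prob F.hM' ρ y).trans ?_)
  rw [nsmul_eq_mul, card_box]

lemma cmp_h {K s : ℝ} {ρ n : ℕ} (hK : cap F.M0 ρ ≤ K) (hs : 0 < s) {v : V}
    (hn : 2 * ‖v‖ * K + 1 ≤ F.r2 * n / 2) : F.hh v ≤ MP_dcd5d0_pr.hh (F.ν.map (tr K)) v + 1
      + 4 * ‖v‖ ^ 2 * F.m2 / s + s * (Real.exp (-n) + (2 * n + 1) ^ 2 * (1 / 2) ^ ρ) := by
  have hM := F.M_pos
  have rK : F.r2 < K := F.hM.trans_lt ((lt_cap hM ρ).trans_le hK)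
  have K0 : 0 ≤ K := by linarith [F.r2_pos]
  set B := BadP F.r2 0 n ∪ Irr F.M0 n ρ with hB
  have mB : MeasurableSet B := (BadP_meas _ _ _).union (Irr_meas _ _ _)
  have pB : (PP Ed F.ν).real B ≤ Real.exp (-n) + (2 * n + 1) ^ 2 * (1 / 2) ^ ρ :=
    (measureReal_union_le _ _).trans (add_le_add (MP_dcd5d0_pr.peierls F.hr2 0 n) (F.Irr_le n ρ))
  obtain ⟨a1, a2, a3, -⟩ := F.T_sq 0 v
  have i1 := F.mp.integrable_comp_of_integrable a3
  have i2 := (tr_mp (ν := F.ν) K).integrable_comp_of_integrable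
    (MP_dcd5d0_pr.T_int (tr_sq K0).1 0 v)
  have i3 := (F.mp.integrable_comp_of_integrable a1).div_const s
  have i4 : Integrable (B.indicator fun _ => s) (PP Ed F.ν) := (integrable_const s).indicator mB
  have key := integral_mono i1 (((i2.add (integrable_const 1)).add i3).add i4) fun ω => by
    simp only [Pi.add_apply, Function.comp]
    have t0 := T_nonneg (Phi F.M0 ω) 0 v
    have t1 := T_nonneg (trO K ω) 0 v
    have t2 : 0 ≤ T (Phi F.M0 ω) 0 v ^ 2 / s := by positivity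
    by_cases c : ω ∈ B
    · rw [Set.indicator_of_mem c]
      have : T (Phi F.M0 ω) 0 v - s ≤ T (Phi F.M0 ω) 0 v ^ 2 / s := by
        rw [le_div_iff₀ hs]; nlinarith [sq_nonneg (T (Phi F.M0 ω) 0 v - s)]
      linarith
    · rw [Set.indicator_of_notMem c]
      rw [hB, Set.mem_union, not_or] at c
      obtain ⟨k, σ, e1, e2, e3⟩ := exists_trail_lt (lt_add_one (T (trO K ω) 0 v))
      have e4 := T_len (ω := trO K ω) (x := 0) (y := v) K0
        (congrArg norm (sub_zero v)).le fun e _ => tr_le K0 _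
      have hk : k ≤ n := by
        by_contra hc
        have := long_trail (ω := trO K ω) F.r2_pos.le (fun h => c.1 ((BadP_iff
          (fun e => lt_tr F.r2_pos.le rK (ω e)) 0 n).1 h)) e2 (not_le.1 hc).le
        linarith
      have := T_mono (ω := Phi F.M0 ω) (ω' := trO K ω) (A := {z | ‖z‖ ≤ n}) e1 (fun j hj => by
        have := norm_pos_sub0 0 σ j
        rw [sub_zero] at this
        exact this.trans (by exact_mod_cast hj.trans hk)) fun e he =>
        le_max_of_le_left (le_max_of_le_right (le_min (Phi_le e)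
          ((Phi_cap hM (not_Irr c.2 he)).trans hK)))
      linarith
  simp only [Pi.add_apply, Function.comp_def] at key i2 i3
  have i5 : Integrable (fun x => T (trO K x) 0 v + 1) (PP Ed F.ν) := i2.add (integrable_const 1)
  have i6 : Integrable (fun x => T (trO K x) 0 v + 1 + T (Phi F.M0 x) 0 v ^ 2 / s) (PP Ed F.ν) :=
    i5.add i3
  rw [integral_add i6 i4, integral_add i5 i3, integral_add i2 (integrable_const 1),
    integral_indicator_const _ mB, integral_div] at key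
  have f1 : F.hh v = ∫ ω, T (Phi F.M0 ω) 0 v ∂PP Ed F.ν :=
    integral_map (Phi_meas _).aemeasurable (T_meas _ _).aestronglyMeasurable
  have f2 : MP_dcd5d0_pr.hh (F.ν.map (tr K)) v = ∫ ω, T (trO K ω) 0 v ∂PP Ed F.ν := by
    unfold MP_dcd5d0_pr.hh
    rw [← (tr_mp (ν := F.ν) K).map_eq, integral_map (tr_mp (ν := F.ν) K).measurable.aemeasurable
      (T_meas _ _).aestronglyMeasurable]
  have f3 : ∫ ω, T ω 0 v ^ 2 ∂F.Pm = ∫ ω, T (Phi F.M0 ω) 0 v ^ 2 ∂PP Ed F.ν :=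
    integral_map (Phi_meas _).aemeasurable ((T_meas _ _).pow_const 2).aestronglyMeasurable
  rw [f3, sub_zero] at a2
  simp only [integral_const, probReal_univ, smul_eq_mul, mul_one] at key
  have f4 := div_le_div_of_nonneg_right a2 hs.le
  have f5 := mul_le_mul_of_nonneg_left pB hs.le
  rw [f1, f2]
  linarith

/-- some passage time at the given scales is far below its mean -/
def BadT (R D : ℕ) (s : ℝ) : Set Om :=
  {ω | ∃ z z' : V, ‖z‖ ≤ R ∧ ‖z' - z‖ ≤ D ∧ T ω z z' < F.hh (z' - z) - s}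

lemma BadT_meas (R D : ℕ) (s : ℝ) : MeasurableSet (F.BadT R D s) := by
  unfold BadT
  simp only [Set.ofPred_exists]
  refine MeasurableSet.iUnion fun z => MeasurableSet.iUnion fun z' => ?_
  refine measurableSet_setOfPred.2 (measurable_const.and (measurable_const.and ?_))
  exact measurableSet_setOfPred.1 (measurableSet_lt (T_meas z z') measurable_const)

lemma BadT_cmp {K s s' : ℝ} {ρ R D R' : ℕ} (hK : cap F.M0 ρ ≤ K)
    (hR : (R : ℝ) + D + 2 * (14 * ρ + 7) ≤ R')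
    (hh' : ∀ v : V, ‖v‖ ≤ D → F.hh v ≤ MP_dcd5d0_pr.hh (F.ν.map (tr K)) v + 3)
    (hs : s' + 3 + 8 * (14 * ρ + 7) * K ≤ s) :
    F.Pm.real (F.BadT R D s) ≤ (PP Ed (F.ν.map (tr K))).real
      (MP_dcd5d0_pr.BadT (F.ν.map (tr K)) R D s') + (2 * R' + 1) ^ 2 * (1 / 2) ^ ρ := by
  rw [F.Pm_real (F.BadT_meas _ _ _), ← (tr_mp (ν := F.ν) K).measureReal_preimage
    (MP_dcd5d0_pr.BadT_meas _ _ _ _).nullMeasurableSet]
  refine le_trans (measureReal_mono ?_ (measure_ne_top _ _))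
    ((measureReal_union_le _ _).trans (add_le_add le_rfl (F.Irr_le R' ρ)))
  rintro ω ⟨z, z', h1, h2, h3⟩
  by_cases c : ω ∈ Irr F.M0 R' ρ
  · exact Or.inr c
  refine Or.inl ⟨z, z', h1, h2, ?_⟩
  have := cmp_T F.M_pos hK (ω := ω) (z := z) (z' := z') fun y hy => not_Irr c (by
    have a1 := norm_add_le (y - z) z
    have a2 := norm_add_le (y - z') (z' - z)
    rw [sub_add_cancel] at a1
    rw [sub_add_sub_cancel] at a2
    have : (0 : ℝ) ≤ D := Nat.cast_nonneg D
    rcases hy with a | a <;> linarith)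
  linarith [hh' _ h2]

lemma BadT_small (C : ℝ) (hC : 1 ≤ C) (q : ℕ) :
    ∀ᶠ t : ℝ in atTop, ∀ R D : ℕ, (R : ℝ) ≤ t ^ q → (D : ℝ) ≤ C * t →
      F.Pm.real (F.BadT R D (t ^ th)) * t ^ q ≤ 1 := by
  have hM := F.M_pos
  have hr := F.r2_pos
  have hm := F.m2_nonneg
  have ty : Tendsto (fun t : ℝ => t ^ (1 / 3000 : ℝ)) atTop atTop := tendsto_rpow_atTop (by norm_num)
  filter_upwards [ty.eventually (small_exp 100 (1 / 2) 1 (by norm_num) one_pos (15000 * (q + 2))),
    ty.eventually_ge_atTop (5041 * F.M0 + 8 * C / F.r2 + 4 * C ^ 2 * F.m2 + C + 1000),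
    eventually_ge_atTop 0] with t ht hy t0 R D hR hD
  set y := t ^ (1 / 3000 : ℝ) with hyd
  have e1 : t = y ^ 3000 := by
    rw [hyd, ← Real.rpow_natCast, ← Real.rpow_mul t0]; norm_num
  have e2 : t ^ th = y ^ 1530 := by
    rw [hyd, ← Real.rpow_natCast, ← Real.rpow_mul t0]; unfold th; norm_num
  rw [e2]
  clear_value y
  subst e1
  have p1 : 0 ≤ 8 * C / F.r2 := by positivity
  have p2 : 0 ≤ 4 * C ^ 2 * F.m2 := by positivity
  have y1 : 1 ≤ y := by linarith
  have y0 : 0 < y := by linarith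
  have pw : ∀ a b : ℕ, a ≤ b → y ^ a ≤ y ^ b := fun a b h => pow_le_pow_right₀ y1 h
  have pw1 : ∀ a : ℕ, 1 ≤ y ^ a := fun a => one_le_pow₀ y1
  have ab : ∀ (c : ℝ) (a b : ℕ), c ≤ y → a + 1 ≤ b → c * y ^ a ≤ y ^ b := by
    intro c a b h1 h2
    refine le_trans ?_ (pw _ _ h2)
    rw [pow_succ, mul_comm]
    exact mul_le_mul_of_nonneg_left h1 (by positivity)
  rw [Real.rpow_one] at ht
  set E := Real.exp (-(1 / 2 * y)) with hE
  have E0 : 0 < E := Real.exp_pos _
  set ρ := ⌈y⌉₊ with hρ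
  have r1 : y ≤ ρ := Nat.le_ceil _
  have r2 : (ρ : ℝ) ≤ 2 * y := by linarith [Nat.ceil_lt_add_one y0.le]
  have r3 : (1 / 2 : ℝ) ^ ρ ≤ E := by
    have : (1 / 2 : ℝ) ≤ Real.exp (-(1 / 2)) := by linarith [Real.add_one_le_exp (-(1 / 2))]
    refine (pow_le_pow_left₀ (by norm_num) this ρ).trans ?_
    rw [← Real.exp_nat_mul, hE, Real.exp_le_exp]; linarith
  have hK : cap F.M0 ρ ≤ y ^ 3 := by
    refine le_trans ?_ (ab (5041 * F.M0) 2 3 (by linarith) le_rfl)
    unfold cap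
    refine (mul_le_mul_of_nonneg_left (pow_le_pow_left₀ (by positivity)
      (show 28 * (ρ : ℝ) + 15 ≤ 71 * y by linarith) 2) hM.le).trans (le_of_eq (by ring))
  have rK : F.r2 < y ^ 3 := F.hM.trans_lt ((lt_cap hM ρ).trans_le hK)
  set n := ⌈y ^ 3009⌉₊ with hn
  have n1 : y ^ 3009 ≤ n := Nat.le_ceil _
  have n2 : (n : ℝ) ≤ 2 * y ^ 3009 := by
    linarith [Nat.ceil_lt_add_one (a := y ^ 3009) (by positivity), pw1 3009]
  have n3 : Real.exp (-n) ≤ E := by
    rw [hE, Real.exp_le_exp]; linarith [pw 1 3009 (by norm_num), pow_one y]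
  have n4 : 4 * C * y ^ 3006 ≤ F.r2 * n / 2 := by
    have a1 := mul_le_mul_of_nonneg_left ((ab (8 * C / F.r2) 3006 3009 (by linarith)
      (by norm_num)).trans n1) hr.le
    have a2 : F.r2 * (8 * C / F.r2 * y ^ 3006) = 8 * C * y ^ 3006 := by field_simp
    linarith
  have big : ∀ a : ℕ, a ≤ 15000 * (q + 2) → 100 * (y ^ a * E) ≤ 1 := fun a h => by
    have := mul_le_mul_of_nonneg_right (pw _ _ h) E0.le
    linarith
  obtain ⟨s1, s2⟩ := tr_sq (ν := F.ν) (K := y ^ 3) (by positivity)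
  have D1 : (D : ℝ) ≤ y ^ 3001 := hD.trans (ab C _ _ (by linarith) le_rfl)
  have R1 : (R : ℝ) ≤ y ^ (3000 * q) := by rwa [pow_mul]
  have Q1 := pw (3000 * q) (3000 * q + 3001) (by omega)
  have Q2 := pw 3001 (3000 * q + 3001) (by omega)
  have Q3 := pw 2 (3000 * q + 3001) (by omega)
  have Q4 := pw1 (3000 * q + 3001)
  have b1 := F.BadT_cmp (s := y ^ 1530) (s' := y ^ 1527) (R := R) (D := D)
    (R' := R + D + 2 * (14 * ρ + 7)) hK (by push_cast; rfl) (fun v hv => by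
      have v1 : ‖v‖ ≤ C * y ^ 3000 := hv.trans hD
      have a1 := F.cmp_h (s := y ^ 6001) (n := n) hK (by positivity) (v := v) (by
        have : ‖v‖ * y ^ 3 ≤ C * y ^ 3000 * y ^ 6 :=
          mul_le_mul v1 (pw _ _ (by norm_num)) (by positivity) (by positivity)
        have : 1 ≤ C * y ^ 3006 := one_le_mul_of_one_le_of_one_le hC (pw1 _)
        linarith)
      have a2 : 4 * ‖v‖ ^ 2 * F.m2 / y ^ 6001 ≤ 1 := by
        rw [div_le_one (by positivity)]
        refine le_trans ?_ (ab (4 * C ^ 2 * F.m2) 6000 6001 (by linarith) le_rfl)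
        calc _ ≤ 4 * (C * y ^ 3000) ^ 2 * F.m2 := by gcongr
          _ = _ := by ring
      have a3 : (2 * (n : ℝ) + 1) ^ 2 * (1 / 2) ^ ρ ≤ (5 * y ^ 3009) ^ 2 * E :=
        mul_le_mul (pow_le_pow_left₀ (by positivity) (by linarith [pw1 3009]) 2) r3
          (by positivity) (by positivity)
      have a4 := mul_le_mul_of_nonneg_left (add_le_add n3 a3) (show 0 ≤ y ^ 6001 by positivity)
      linarith [big 6001 (by omega), big 12019 (by omega)]) (by
      have a1 : 8 * (14 * (ρ : ℝ) + 7) * y ^ 3 ≤ 280 * y * y ^ 3 :=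
        mul_le_mul_of_nonneg_right (by linarith) (by positivity)
      linarith [ab 300 1527 1530 (by linarith) (by norm_num), pw 4 1527 (by norm_num), pw1 1527])
  have b2 := BadT_le s1 hr.le ((tr_Iic hr.le rK).trans_le F.hr2) R D n (y ^ 1510)⁻¹ (y ^ 1527)
    (by positivity) (by positivity) (by
      rw [inv_pow, inv_mul_le_iff₀ (by positivity)]
      have := mul_le_mul n2 s2 (MP_dcd5d0_pr.m2_nonneg _) (by positivity)
      linarith [ab 2 3015 3020 (by linarith) (by norm_num)]) (by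
      have a1 : MP_dcd5d0_pr.m1 (F.ν.map (tr (y ^ 3))) ≤ 4 * y ^ 6 := by
        unfold MP_dcd5d0_pr.m1; linarith [pw1 6]
      have := mul_le_mul a1 hD (by positivity) (by positivity)
      linarith)
  have b3 : Real.exp (2 - (y ^ 1510)⁻¹ * y ^ 1527) ≤ E := by
    rw [hE, Real.exp_le_exp, show (y ^ 1510)⁻¹ * y ^ 1527 = y ^ 17 by field_simp]
    linarith [pw 1 17 (by norm_num), pow_one y]
  set W := y ^ (3000 * q + 3001) with hW
  have b4 : (2 * (R : ℝ) + 1) ^ 2 * (2 * D + 1) ^ 2 * (Real.exp (2 - (y ^ 1510)⁻¹ * y ^ 1527)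
      + Real.exp (-n)) ≤ (3 * W) ^ 2 * (3 * W) ^ 2 * (E + E) := by
    gcongr <;> linarith
  have b5 : (2 * ((R + D + 2 * (14 * ρ + 7) : ℕ) : ℝ) + 1) ^ 2 * (1 / 2) ^ ρ
      ≤ (6 * W) ^ 2 * E := by
    refine mul_le_mul (pow_le_pow_left₀ (by positivity) ?_ 2) r3 (by positivity) (by positivity)
    push_cast
    linarith [ab 200 1 2 (by linarith) le_rfl, pow_one y]
  have b6 : W ^ 2 * E ≤ W ^ 4 * E :=
    mul_le_mul_of_nonneg_right (pow_le_pow_right₀ Q4 (by norm_num)) E0.le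
  have b7 : F.Pm.real (F.BadT R D (y ^ 1530)) ≤ 200 * (W ^ 4 * E) := by
    have : 0 ≤ W ^ 4 * E := by positivity
    linarith
  have b8 := mul_le_mul_of_nonneg_right b7 (show 0 ≤ (y ^ 3000) ^ q by positivity)
  have b9 : 200 * (W ^ 4 * E) * (y ^ 3000) ^ q = 200 * y ^ (15000 * q + 12004) * E := by
    rw [hW]; ring
  have b10 := mul_le_mul_of_nonneg_right (ab 200 (15000 * q + 12004) _ (by linarith) le_rfl) E0.le
  have b11 := big (15000 * q + 12004 + 1) (by omega)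
  have : 0 ≤ y ^ (15000 * q + 12004 + 1) * E := by positivity
  linarith

end Fld

end Pool.Agent.P.MP_dcd5d0_pr.NM
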