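import Pool.Agent.P.MP_dcd5d0_pr.NM.Prob

/-! The capped field `Phi`, its finite range versions `Psi`, and the bypass lemma. -/

set_option autoImplicit false

open MeasureTheory Finset Filter

namespace Pool.Agent.P.MP_dcd5d0_pr.NM

/-- frames at all dyadic scales between `r` and `s` -/
def Rs (M : ℝ) (ω : Om) (x : V) (s r : ℕ) : Prop :=
  ∀ k : ℕ, r ≤ 2 ^ k → 2 ^ k ≤ s → Frame M ω x (2 ^ k)

noncomputable def cap (M : ℝ) (r : ℕ) : ℝ := M * (28 * r + 15) ^ 2

/-- finite range capped field -/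
noncomputable def Psi (M : ℝ) (s : ℕ) (ω : Om) : Om :=
  fun e => min (ω e) (cap M (sInf {r | Rs M ω e.1 s r}))

open Classical in
/-- capped field -/
noncomputable def Phi (M : ℝ) (ω : Om) : Om := fun e =>
  if ∃ r, Reg M ω e.1 r then min (ω e) (cap M (sInf {r | Reg M ω e.1 r})) else ω e

variable {M : ℝ} {ω ω' : Om}

lemma cap_mono (hM : 0 < M) {r r' : ℕ} (h : r ≤ r') : cap M r ≤ cap M r' := by
  have : (r : ℝ) ≤ r' := by exact_mod_cast h
  unfold cap; gcongr

lemma lt_cap (hM : 0 < M) (r : ℕ) : M < cap M r := by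
  have : (0 : ℝ) ≤ r := Nat.cast_nonneg r
  unfold cap; nlinarith [mul_pos hM (show (0 : ℝ) < (28 * r + 15) ^ 2 - 1 by nlinarith)]

lemma Phi_le (e : Ed) : Phi M ω e ≤ ω e := by
  unfold Phi; split_ifs
  · exact min_le_left _ _
  · exact le_rfl

lemma lt_Phi (hM : 0 < M) {t : ℝ} (ht : t ≤ M) (e : Ed) : t < Phi M ω e ↔ t < ω e := by
  unfold Phi; split_ifs
  · rw [lt_min_iff, and_iff_left (ht.trans_lt (lt_cap hM _))]
  · rfl

lemma lt_Psi (hM : 0 < M) {t : ℝ} (ht : t ≤ M) (s : ℕ) (e : Ed) : t < Psi M s ω e ↔ t < ω e := by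
  unfold Psi; rw [lt_min_iff, and_iff_left (ht.trans_lt (lt_cap hM _))]

lemma Frame_Phi (hM : 0 < M) (x : V) (k : ℕ) :
    Frame M (Phi M ω) x (2 ^ k) ↔ Frame M ω x (2 ^ k) :=
  ⟨fun h => h.of (by positivity) fun e _ w => not_lt.1 fun c =>
      absurd ((lt_Phi hM le_rfl e).2 c) (not_lt.2 w),
    fun h => h.of (by positivity) fun e _ w => (Phi_le e).trans w⟩

lemma Phi_cap (hM : 0 < M) {e : Ed} {r : ℕ} (h : Reg M ω e.1 r) : Phi M ω e ≤ cap M r := by
  unfold Phi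
  rw [if_pos ⟨r, h⟩]
  exact (min_le_right _ _).trans (cap_mono hM (Nat.sInf_le h))

lemma Phi_lt {e : Ed} (h : Phi M ω e < ω e) : ∃ r, Reg M ω e.1 r ∧ cap M r ≤ Phi M ω e := by
  unfold Phi at h ⊢
  split_ifs at h ⊢ with c
  · refine ⟨_, Nat.sInf_mem c, le_min ?_ le_rfl⟩
    rcases min_lt_iff.1 h with a | a
    · exact absurd a (lt_irrefl _)
    · exact a.le
  · exact absurd h (lt_irrefl _)

lemma Rs_ne (x : V) (s : ℕ) : {r | Rs M ω x s r}.Nonempty :=
  ⟨s + 1, fun _ a b => absurd (a.trans b) (by omega)⟩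

lemma Psi_Phi (hM : 0 < M) (s : ℕ) (ω : Om) : Psi M s (Phi M ω) = Psi M s ω := by
  funext e
  unfold Psi
  have e1 : {r | Rs M (Phi M ω) e.1 s r} = {r | Rs M ω e.1 s r} := by
    ext r; simp only [Rs, Set.mem_ofPred_eq, Frame_Phi hM]
  rw [e1]
  unfold Phi
  split_ifs with c
  · rw [min_assoc, min_eq_right (a := cap M _)]
    exact cap_mono hM (Nat.sInf_le fun k a _ => Nat.sInf_mem c k a)
  · rfl

lemma Psi_eq {s : ℕ} {e : Ed} (h : Reg M ω e.1 s) : Psi M s ω e = Phi M ω e := by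
  unfold Psi Phi
  rw [if_pos ⟨s, h⟩]
  congr 3
  ext r
  refine ⟨fun g k a => ?_, fun g k a _ => g k a⟩
  rcases le_total (2 ^ k) s with c | c
  · exact g k a c
  · exact h k c

lemma Psi_mono (hM : 0 < M) (s : ℕ) (e : Ed) (h0 : ω e ≤ ω' e)
    (h : ∀ e' : Ed, e'.1 ∈ bx e.1 (7 * s) → ω e' ≤ ω' e') : Psi M s ω e ≤ Psi M s ω' e := by
  refine min_le_min h0 (cap_mono hM (Nat.sInf_le fun k a b => ?_))
  refine (Nat.sInf_mem (Rs_ne (M := M) (ω := ω') e.1 s) k a b).of (by positivity)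
    fun e' he w => (h e' (bx_mono _ ?_ he)).trans w
  have : ((2 ^ k : ℕ) : ℤ) ≤ s := by exact_mod_cast b
  push_cast at this
  omega

lemma Phi_sh (z : V) (ω : Om) : Phi M (SC.sh z ω) = SC.sh z (Phi M ω) := by
  funext e
  have : Reg M (SC.sh z ω) e.1 = Reg M ω (e.1 + z) := by
    funext r; simp only [Reg, Frame_sh]
  unfold Phi
  rw [this]; rfl

lemma sInf_meas {p : ℕ → Om → Prop} (h : ∀ r, MeasurableSet {ω | p r ω}) :
    Measurable fun ω => sInf {r | p r ω} := by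
  refine measurable_of_Iic fun c => ?_
  have : (fun ω => sInf {r | p r ω}) ⁻¹' Set.Iic c =
      (⋃ r, ⋃ _ : r ≤ c, {ω | p r ω}) ∪ ⋂ r, {ω | p r ω}ᶜ := by
    ext ω
    simp only [Set.mem_preimage, Set.mem_Iic, Set.mem_union, Set.mem_iUnion, Set.mem_iInter,
      Set.mem_compl_iff, Set.mem_ofPred_eq]
    constructor
    · intro a
      by_cases c' : ∃ r, p r ω
      · exact Or.inl ⟨_, a, Nat.sInf_mem c'⟩
      · exact Or.inr fun r hr => c' ⟨r, hr⟩
    · rintro (⟨r, a, b⟩ | a)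
      · exact (Nat.sInf_le b).trans a
      · rw [show {r | p r ω} = ∅ from Set.eq_empty_of_forall_notMem a]; simp
  rw [this]
  exact (MeasurableSet.iUnion fun r => MeasurableSet.iUnion fun _ => h r).union
    (MeasurableSet.iInter fun r => (h r).compl)

lemma Reg_meas (M : ℝ) (x : V) (r : ℕ) : MeasurableSet {ω | Reg M ω x r} :=
  measurableSet_setOfPred.2 (Measurable.forall fun _ => Measurable.imp measurable_const
    (measurableSet_setOfPred.1 (Frame_meas M x _)))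

lemma Psi_meas (M : ℝ) (s : ℕ) : Measurable (Psi M s) :=
  measurable_pi_lambda _ fun e => (measurable_pi_apply e).min
    ((measurable_from_top (f := cap M)).comp (sInf_meas fun _ =>
      measurableSet_setOfPred.2 (Measurable.forall fun _ => Measurable.imp measurable_const
        (Measurable.imp measurable_const (measurableSet_setOfPred.1 (Frame_meas M _ _))))))

lemma Phi_meas (M : ℝ) : Measurable (Phi M) := by
  refine measurable_pi_lambda _ fun e => Measurable.ite ?_ ((measurable_pi_apply e).min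
    ((measurable_from_top (f := cap M)).comp (sInf_meas fun r => Reg_meas M _ r)))
    (measurable_pi_apply e)
  simp only [Set.ofPred_exists]
  exact MeasurableSet.iUnion fun r => Reg_meas M _ r

lemma Good.of_wk {U : Set V} {o a : V} {R : ℕ} (h : Good M ω o) (w : Wk M ω U o a)
    (ha : o ∈ bx a R) : Good M ω a := by
  intro n
  obtain ⟨y, h1, h2⟩ := h (n + R)
  refine ⟨y, fun c => h1 ?_, (w.mono (Set.subset_univ _)).symm.trans h2⟩
  have := bx_trans (bx_symm ha) c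
  push_cast
  rwa [add_comm]

lemma Hub.reach {x o p : V} {s : ℕ} (hs : 1 ≤ s) (h : Hub M ω x s o) {σ : ℕ → Dir} {k : ℕ}
    (hp : p ∈ bx x s) (hg : Good M ω (pos p σ k)) :
    ∃ j ≤ k, Wk M ω (bx x (7 * s)) o (pos p σ j) := by
  by_cases c : ∀ l ≤ k, pos p σ l ∈ bx x (2 * s)
  · obtain ⟨y, hy, m, τ, e1, _, e3⟩ := hg (4 * s)
    obtain ⟨j, hj, f1, f2⟩ := first_exit (U := bx x (2 * s)) (σ := τ) (k := m) (c k le_rfl) (by
      rw [e1]; intro hc
      exact hy (bx_mono _ (by push_cast; omega) (bx_trans (bx_symm (c k le_rfl)) hc)))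
    obtain ⟨l, hl, g⟩ := h.2.2 p (cat σ k τ) (k + (j + 1)) hp (by rw [pos_cat]; exact f2)
    rcases le_total l k with c' | c'
    · exact ⟨l, c', by rwa [pos_congr p (cat_left σ k τ) c'] at g⟩
    · obtain ⟨i, rfl⟩ := Nat.exists_eq_add_of_le c'
      rw [pos_cat] at g
      refine ⟨k, le_rfl, g.trans (Wk.init (fun l' hl' => ?_) fun l' hl' => e3 l' (by omega)).symm⟩
      rcases eq_or_lt_of_le (show l' ≤ j + 1 by omega) with rfl | h5
      · exact bx_mono x (by omega) (bx_step (f1 j le_rfl))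
      · exact bx_mono x (by omega) (f1 l' (by omega))
  · push Not at c
    obtain ⟨l, hl, c⟩ := c
    obtain ⟨j, hj, g⟩ := h.2.2 p σ l hp c
    exact ⟨j, hj.trans hl, g⟩

lemma exists_pow (r : ℕ) : ∃ k : ℕ, r ≤ 2 ^ k ∧ 2 ^ k ≤ 2 * r + 1 := by
  induction r with
  | zero => exact ⟨0, by simp, by simp⟩
  | succ r ih =>
    obtain ⟨k, h1, h2⟩ := ih
    rcases h1.eq_or_lt with h | h
    · exact ⟨k + 1, by have := Nat.one_le_two_pow (n := k); omega, by omega⟩
    · exact ⟨k, h, by omega⟩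

lemma Reg.hub {x : V} {r : ℕ} (h : Reg M ω x r) :
    ∃ (s : ℕ) (o : V), 1 ≤ s ∧ s ≤ 2 * r + 1 ∧ Hub M ω x s o ∧ Good M ω o := by
  obtain ⟨k, h1, h2⟩ := exists_pow r
  obtain ⟨o, ho⟩ := (h k h1).hub (one_le_pow₀ (by norm_num))
  exact ⟨2 ^ k, o, Nat.one_le_two_pow, h2, by exact_mod_cast ho, h.good h1 ho⟩

/-- capped edges can be bypassed -/
theorem bypass (hM : 0 < M) {a b : V} (ha : Good M ω a) (hb : Good M ω b) :
    T ω a b ≤ T (Phi M ω) a b := by
  refine le_T fun k => ?_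
  induction k using Nat.strong_induction_on generalizing a b with
  | _ k ih =>
    intro σ hk
    by_cases c : ∀ j < k, ω (ed a σ j) ≤ Phi M ω (ed a σ j)
    · exact (T_le0 ω hk).trans (sum_le_sum fun j hj => max_le_max (c j (mem_Ico.1 hj).2) le_rfl)
    push Not at c
    obtain ⟨j, hj, c⟩ := c
    obtain ⟨r, r1, r2⟩ := Phi_lt c
    obtain ⟨s, o, s1, s2, ho, go⟩ := r1.hub
    have m : pos a σ j ∈ bx (ed a σ j).1 s ∧ pos a σ (j + 1) ∈ bx (ed a σ j).1 s := by
      rcases ed_base a σ j with e | e <;> rw [e] <;> constructor <;> intro i <;>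
        have := pos_step a σ j i <;> omega
    obtain ⟨d, rfl⟩ := Nat.exists_eq_add_of_le (show j + 1 ≤ k from hj)
    obtain ⟨i, hi, w1⟩ := ho.reach s1 (σ := rv σ j) (k := j) m.1
      (by rw [pos_rv a σ j j le_rfl]; simpa using ha)
    obtain ⟨i', hi', w2⟩ := ho.reach s1 (σ := fun l => σ (j + 1 + l)) (k := d) m.2
      (by rw [pos_shift, hk]; exact hb)
    rw [pos_rv a σ j i hi] at w1
    rw [pos_shift] at w2
    have g : ∀ z, Wk M ω (bx (ed a σ j).1 (7 * s)) o z → Good M ω z := fun z w =>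
      go.of_wk w (R := 14 * s) (by
        have := bx_trans (bx_symm w.right) w.left
        push_cast; convert this using 2; ring)
    have t1 := ih (j - i) (by omega) ha (g _ w1) σ rfl
    obtain ⟨d', rfl⟩ := Nat.exists_eq_add_of_le hi'
    have t3 := ih d' (by omega) (g _ w2) hb (fun l => σ (j + 1 + i' + l))
      (by rw [pos_shift, ← hk]; congr 1; omega)
    rw [tm_shift] at t3
    have t2 := (Wk.jn_bx (R := 7 * s) (by push_cast; exact w1.symm.trans w2) hM.le).T_le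
    have t4 : M * (2 * ((7 * s : ℕ) : ℝ) + 1) ^ 2 ≤ cap M r := by
      have : (s : ℝ) ≤ 2 * r + 1 := by exact_mod_cast s2
      unfold cap; push_cast
      exact mul_le_mul_of_nonneg_left (pow_le_pow_left₀ (by positivity) (by linarith) 2) hM.le
    have t5 : Phi M ω (ed a σ j) ≤ tm (Phi M ω) a σ (j - i) (j + 1 + i') :=
      (le_max_left _ 0).trans (single_le_sum (f := fun l => max (Phi M ω (ed a σ l)) 0)
        (fun _ _ => le_max_right _ _) (mem_Ico.2 ⟨by omega, by omega⟩))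
    have t6 := tm_add (Phi M ω) a σ (Nat.zero_le (j - i)) (show j - i ≤ j + 1 + i' by omega)
    have t7 := tm_add (Phi M ω) a σ (Nat.zero_le (j + 1 + i'))
      (show j + 1 + i' ≤ j + 1 + i' + d' by omega)
    have t8 := T_tri ω a (pos a σ (j - i)) b
    have t9 := T_tri ω (pos a σ (j - i)) (pos a σ (j + 1 + i')) b
    rw [← add_assoc]
    linarith

lemma T_mono {A : Set V} {x y : V} {σ : ℕ → Dir} {k : ℕ} (hk : pos x σ k = y)
    (hA : ∀ j ≤ k, pos x σ j ∈ A) (h : ∀ e : Ed, e.1 ∈ A → ω e ≤ max (ω' e) 0) :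
    T ω x y ≤ tm ω' x σ 0 k :=
  (T_le0 ω hk).trans (sum_le_sum fun _ hj =>
    max_le (h _ (SC.ed_mem hA (mem_Ico.1 hj).2)) (le_max_right _ _))

lemma T_le_T (h : ∀ e, ω e ≤ max (ω' e) 0) (x y : V) : T ω x y ≤ T ω' x y :=
  le_T fun _ _ hk => T_mono (A := Set.univ) hk (fun _ _ => trivial) fun e _ => h e

lemma T_Phi_le (x y : V) : T (Phi M ω) x y ≤ T ω x y :=
  T_le_T (fun e => (Phi_le e).trans (le_max_left _ _)) x y

lemma T_len {x y : V} {K a : ℝ} (hK : 0 ≤ K) (ha : ‖y - x‖ ≤ a)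
    (h : ∀ e : Ed, ‖e.1 - x‖ ≤ 2 * a → ω e ≤ K) : T ω x y ≤ 2 * a * K := by
  obtain ⟨k, σ, h1, h2⟩ := exists_path x y
  have h3 := T_mono (ω := ω) (ω' := fun _ => K) (A := {z | ‖z - x‖ ≤ 2 * a}) h1 (fun j hj => by
    have : (j : ℝ) ≤ k := by exact_mod_cast hj
    exact (norm_pos_sub0 x σ j).trans (by linarith)) fun e he => (h e he).trans (le_max_left _ _)
  simp only [tm, max_eq_left hK, sum_const, Nat.card_Ico, Nat.sub_zero, nsmul_eq_mul] at h3
  exact h3.trans (mul_le_mul_of_nonneg_right (by linarith) hK)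

lemma Reg.near {x : V} {r : ℕ} (h : Reg M ω x r) :
    ∃ o, Good M ω o ∧ ‖o - x‖ ≤ 14 * r + 7 := by
  obtain ⟨s, o, _, s2, ho, go⟩ := h.hub
  have := mem_bx.1 (show o ∈ bx x ((14 * r + 7 : ℕ) : ℤ) from bx_mono x (by omega) ho.mem)
  exact ⟨o, go, by exact_mod_cast this⟩

end Pool.Agent.P.MP_dcd5d0_pr.NM
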