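import Pool.Agent.P.MP_dcd5d0_pr.NM.Frame
import Pool.Agent.P.MP_dcd5d0_pr.SC.Ctx

/-! Frames are measurable, local, monotone, covariant, and very likely. -/

set_option autoImplicit false

open MeasureTheory Finset Filter

namespace Pool.Agent.P.MP_dcd5d0_pr.NM

variable {M : ℝ} {ω ω' : Om}

lemma Wk.of {U : Set V} {a b : V} (h : Wk M ω U a b)
    (hw : ∀ e : Ed, e.1 ∈ U → ω e ≤ M → ω' e ≤ M) : Wk M ω' U a b := by
  obtain ⟨k, σ, h1, h2, h3⟩ := h
  exact ⟨k, σ, h1, h2, fun j hj => hw _ (SC.ed_mem h2 hj) (h3 j hj)⟩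

lemma Cr.of {i : Fin 2} {a b c d : ℤ} (h : Cr M ω i a b c d)
    (hw : ∀ e : Ed, e.1 ∈ Rect i a b c d → ω e ≤ M → ω' e ≤ M) : Cr M ω' i a b c d := by
  obtain ⟨x, y, h1, h2, h3⟩ := h
  exact ⟨x, y, h1, h2, h3.of hw⟩

lemma Frame.of {x : V} {s : ℤ} (hs : 0 ≤ s) (h : Frame M ω x s)
    (hw : ∀ e : Ed, e.1 ∈ bx x (7 * s) → ω e ≤ M → ω' e ≤ M) : Frame M ω' x s := fun i =>
  ⟨(h i).1.of fun e he => hw e (by obtain ⟨z1, z2, z3, z4⟩ := he; rw [mem_bx2 i]; omega),
    (h i).2.of fun e he => hw e (by obtain ⟨z1, z2, z3, z4⟩ := he; rw [mem_bx2 i]; omega)⟩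

lemma Wk_meas (M : ℝ) (U : Set V) (a b : V) : MeasurableSet {ω | Wk M ω U a b} := by
  have : {ω | Wk M ω U a b} = ⋃ l : List Dir,
      ⋃ _ : pos a (st l) l.length = b ∧ ∀ j ≤ l.length, pos a (st l) j ∈ U,
        ⋂ j, ⋂ _ : j < l.length, {ω | ω (ed a (st l) j) ≤ M} := by
    ext ω
    simp only [Set.mem_iUnion, Set.mem_ofPred_eq, Set.mem_iInter]
    constructor
    · rintro ⟨k, σ, h1, h2, h3⟩
      obtain ⟨l, rfl, hl⟩ := exists_list σ k
      refine ⟨l, ⟨by rw [pos_congr a hl le_rfl, h1], fun j hj => ?_⟩, fun j hj => ?_⟩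
      · rw [pos_congr a hl hj]; exact h2 j hj
      · rw [ed_congr a hl hj]; exact h3 j hj
    · rintro ⟨l, ⟨h1, h2⟩, h3⟩
      exact ⟨_, _, h1, h2, h3⟩
  rw [this]
  exact MeasurableSet.iUnion fun l => MeasurableSet.iUnion fun _ => MeasurableSet.iInter fun j =>
    MeasurableSet.iInter fun _ => measurableSet_le (measurable_pi_apply _) measurable_const

lemma Cr_meas (M : ℝ) (i : Fin 2) (a b c d : ℤ) : MeasurableSet {ω | Cr M ω i a b c d} := by
  unfold Cr
  simp only [Set.ofPred_exists]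
  refine MeasurableSet.iUnion fun x => MeasurableSet.iUnion fun y => ?_
  exact measurableSet_setOfPred.2 (measurable_const.and (measurable_const.and
    (measurableSet_setOfPred.1 (Wk_meas M _ x y))))

lemma Frame_meas (M : ℝ) (x : V) (s : ℤ) : MeasurableSet {ω | Frame M ω x s} :=
  measurableSet_setOfPred.2 (Measurable.forall fun _ =>
    (measurableSet_setOfPred.1 (Cr_meas M _ _ _ _ _)).and
      (measurableSet_setOfPred.1 (Cr_meas M _ _ _ _ _)))

lemma Wk.sh {U U' : Set V} {a b z : V} (h : Wk M (SC.sh z ω) U a b) (hU : ∀ y ∈ U, y + z ∈ U') :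
    Wk M ω U' (a + z) (b + z) := by
  obtain ⟨k, σ, h1, h2, h3⟩ := h
  refine ⟨k, σ, by rw [pos_add, h1], fun j hj => by rw [pos_add]; exact hU _ (h2 j hj),
    fun j hj => ?_⟩
  have := h3 j hj
  simp only [ed, pos_add, SC.sh] at this ⊢
  split_ifs at this ⊢ <;> exact this

lemma Cr.sh {i : Fin 2} {a b c d a' b' c' d' : ℤ} {z : V} (h : Cr M (SC.sh z ω) i a b c d)
    (ha : a' = a + z i) (hb : b' = b + z i) (hc : c' = c + z (ot i)) (hd : d' = d + z (ot i)) :
    Cr M ω i a' b' c' d' := by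
  obtain ⟨x, y, h1, h2, h3⟩ := h
  refine ⟨x + z, y + z, by rw [Pi.add_apply]; omega, by rw [Pi.add_apply]; omega,
    h3.sh fun w hw => ?_⟩
  obtain ⟨z1, z2, z3, z4⟩ := hw
  refine ⟨?_, ?_, ?_, ?_⟩ <;> rw [Pi.add_apply] <;> omega

lemma Frame.sh {x z : V} {s : ℤ} (h : Frame M (SC.sh z ω) x s) : Frame M ω (x + z) s := fun i =>
  ⟨(h i).1.sh (by rw [Pi.add_apply]; ring) (by rw [Pi.add_apply]; ring)
      (by rw [Pi.add_apply]; ring) (by rw [Pi.add_apply]; ring),
    (h i).2.sh (by rw [Pi.add_apply]; ring) (by rw [Pi.add_apply]; ring)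
      (by rw [Pi.add_apply]; ring) (by rw [Pi.add_apply]; ring)⟩

lemma Frame_sh (x z : V) (s : ℤ) : Frame M (SC.sh z ω) x s ↔ Frame M ω (x + z) s := by
  refine ⟨Frame.sh, fun h => ?_⟩
  have e : ω = SC.sh (-z) (SC.sh z ω) := by funext e; simp [SC.sh]
  rw [e] at h
  simpa using h.sh

variable {ν : Measure ℝ} [IsProbabilityMeasure ν]

lemma cr_prob (hM : ν.real (Set.Ioi M) ≤ 1 / 700) (k : ℕ) : ∀ (i : Fin 2) (a c : ℤ),
    (PP Ed ν).real {ω | ¬ Cr M ω i a (a + 14 * 2 ^ k) c (c + 2 ^ k - 1)}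
      ≤ 1 / 25 * (1 / 2) ^ 2 ^ k := by
  induction k with
  | zero =>
    intro i a c
    set x : V := fun j => if j = i then a else c with hx
    have e : ∀ j : ℕ, pos x (fun _ => (i, true)) j = x + Pi.single i (j : ℤ) := fun j => by
      ext l; simp [pos, stp, Pi.single_apply]
    have sub : {ω | ¬ Cr M ω i a (a + 14 * 2 ^ 0) c (c + 2 ^ 0 - 1)} ⊆
        ⋃ j ∈ range 14, {ω : Om | M < ω (ed x (fun _ => (i, true)) j)} := by
      intro ω hω
      by_contra hc
      simp only [Set.mem_iUnion, Set.mem_ofPred_eq, not_exists, not_lt, mem_range] at hc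
      refine hω ⟨x, _, by simp [hx], ?_, 14, fun _ => (i, true), rfl, fun j hj => ?_, hc⟩
      · rw [e]; simp [hx]
      · rw [e]
        have := ot_ne i
        refine ⟨?_, ?_, ?_, ?_⟩ <;> simp [hx, this]
        omega
    refine (measureReal_mono sub (measure_ne_top _ _)).trans
      ((measureReal_biUnion_finset_le _ _).trans ?_)
    refine (sum_le_card_nsmul _ _ (1 / 700) fun j _ => le_trans (le_of_eq ?_) hM).trans
      (by norm_num)
    exact congrArg ENNReal.toReal ((measurePreserving_eval_infinitePi (fun _ : Ed => ν)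
      _).measure_preimage measurableSet_Ioi.nullMeasurableSet)
  | succ k ih =>
    intro i a c
    set s : ℤ := 2 ^ k with hs
    have s1 : 1 ≤ s := one_le_pow₀ (by norm_num)
    set q : ℝ := 1 / 25 * (1 / 2) ^ 2 ^ k with hq
    have strip : ∀ c : ℤ, (PP Ed ν).real {ω | ¬ Cr M ω i a (a + 28 * s) c (c + s - 1)} ≤ 5 * q := by
      intro c
      have sub : {ω | ¬ Cr M ω i a (a + 28 * s) c (c + s - 1)} ⊆
          (((({ω | ¬ Cr M ω i a (a + 14 * s) c (c + s - 1)} ∪
          {ω | ¬ Cr M ω i (a + 7 * s) (a + 7 * s + 14 * s) c (c + s - 1)}) ∪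
          {ω | ¬ Cr M ω i (a + 14 * s) (a + 14 * s + 14 * s) c (c + s - 1)}) ∪
          {ω | ¬ Cr M ω (ot i) c (c + 14 * s) (a + 8 * s) (a + 8 * s + s - 1)}) ∪
          {ω | ¬ Cr M ω (ot i) c (c + 14 * s) (a + 15 * s) (a + 15 * s + s - 1)}) := by
        intro ω hω
        by_contra hc
        simp only [Set.mem_union, Set.mem_ofPred_eq, not_or, not_not] at hc
        obtain ⟨⟨⟨⟨c1, c2⟩, c3⟩, c4⟩, c5⟩ := hc
        refine hω (Cr.glue s1 c1 (by convert c2 using 1; ring) (by convert c3 using 1; ring)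
          (by convert c4.cut (b' := c + s - 1) (by omega) (by omega) using 1; ring)
          (by convert c5.cut (b' := c + s - 1) (by omega) (by omega) using 1; ring))
      refine (measureReal_mono sub (measure_ne_top _ _)).trans ?_
      refine (measureReal_union_le _ _).trans ((add_le_add ((measureReal_union_le _ _).trans
        (add_le_add ((measureReal_union_le _ _).trans (add_le_add ((measureReal_union_le _ _).trans
        (add_le_add (ih _ _ _) (ih _ _ _))) (ih _ _ _))) (ih _ _ _))) (ih _ _ _)).trans ?_)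
      linarith
    have lc : ∀ c : ℤ, SC.Loc (Rect i a (a + 28 * s) c (c + s - 1))
        (· ∈ {ω | ¬ Cr M ω i a (a + 28 * s) c (c + s - 1)}) := fun c ω ω' h => by
      simp only [Set.mem_ofPred_eq, eq_iff_iff]
      exact not_congr ⟨fun g => g.of fun e he w => h e he ▸ w, fun g => g.of fun e he w =>
        (h e he).symm ▸ w⟩
    have ind := SC.Loc.inter (ν := ν) (S := Rect i a (a + 28 * s) c (c + s - 1))
      (S' := Rect i a (a + 28 * s) (c + s) (c + s + s - 1))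
      (Set.disjoint_left.2 fun z h h' => by have := h.2.2.2; have := h'.2.2.1; omega)
      (Cr_meas M _ _ _ _ _).compl (Cr_meas M _ _ _ _ _).compl (lc c) (lc (c + s))
    have sub : {ω | ¬ Cr M ω i a (a + 14 * 2 ^ (k + 1)) c (c + 2 ^ (k + 1) - 1)} ⊆
        {ω | Cr M ω i a (a + 28 * s) c (c + s - 1)}ᶜ ∩
          {ω | Cr M ω i a (a + 28 * s) (c + s) (c + s + s - 1)}ᶜ := by
      intro ω hω
      have e1 : a + 14 * 2 ^ (k + 1) = a + 28 * s := by rw [hs]; ring
      have e2 : (2 : ℤ) ^ (k + 1) = 2 * s := by rw [hs]; ring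
      rw [e1, e2] at hω
      exact ⟨fun h => hω (Cr.wide h le_rfl (by omega)), fun h => hω (Cr.wide h (by omega) (by omega))⟩
    refine (measureReal_mono sub (measure_ne_top _ _)).trans (ind.le.trans ?_)
    refine (mul_le_mul (strip c) (strip (c + s)) measureReal_nonneg (by positivity)).trans
      (le_of_eq ?_)
    rw [hq, pow_succ 2 k, pow_mul]; ring

lemma frame_prob (hM : ν.real (Set.Ioi M) ≤ 1 / 700) (k : ℕ) (x : V) :
    (PP Ed ν).real {ω | ¬ Frame M ω x (2 ^ k)} ≤ 1 / 4 * (1 / 2) ^ 2 ^ k := by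
  have sub : {ω | ¬ Frame M ω x (2 ^ k)} ⊆ ⋃ i ∈ (univ : Finset (Fin 2)),
      ({ω | ¬ Cr M ω i (x i - 7 * 2 ^ k) (x i - 7 * 2 ^ k + 14 * 2 ^ k) (x (ot i) + 2 ^ k + 1)
        (x (ot i) + 2 ^ k + 1 + 2 ^ k - 1)} ∪
      {ω | ¬ Cr M ω i (x i - 7 * 2 ^ k) (x i - 7 * 2 ^ k + 14 * 2 ^ k) (x (ot i) - 2 * 2 ^ k)
        (x (ot i) - 2 * 2 ^ k + 2 ^ k - 1)}) := by
    intro ω hω
    by_contra hc
    simp only [Set.mem_iUnion, Set.mem_union, Set.mem_ofPred_eq, not_exists, not_or, not_not] at hc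
    refine hω fun i => ⟨?_, ?_⟩
    · convert (hc i (mem_univ _)).1 using 1 <;> ring
    · convert (hc i (mem_univ _)).2 using 1 <;> ring
  refine (measureReal_mono sub (measure_ne_top _ _)).trans
    ((measureReal_biUnion_finset_le _ _).trans ?_)
  refine (sum_le_card_nsmul _ _ _ fun i _ => (measureReal_union_le _ _).trans
    (add_le_add (cr_prob hM k _ _ _) (cr_prob hM k _ _ _))).trans ?_
  have : (0 : ℝ) ≤ (1 / 2) ^ 2 ^ k := by positivity
  simp only [card_univ, Fintype.card_fin, nsmul_eq_mul, Nat.cast_ofNat]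
  linarith

lemma reg_prob (hM : ν.real (Set.Ioi M) ≤ 1 / 700) (r : ℕ) (x : V) :
    (PP Ed ν).real {ω | ¬ Reg M ω x r} ≤ (1 / 2) ^ r := by
  have sub : {ω | ¬ Reg M ω x r} ⊆
      ⋃ n : ℕ, {ω | ∃ k, 2 ^ k = r + n ∧ ¬ Frame M ω x (2 ^ k)} := by
    intro ω hω
    simp only [Reg, Set.mem_ofPred_eq, not_forall] at hω
    obtain ⟨k, h1, h2⟩ := hω
    exact Set.mem_iUnion.2 ⟨2 ^ k - r, k, by omega, h2⟩
  have hb : ∀ n : ℕ, PP Ed ν {ω | ∃ k, 2 ^ k = r + n ∧ ¬ Frame M ω x (2 ^ k)}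
      ≤ ENNReal.ofReal ((1 / 2) ^ r / 2 / 2 ^ n) := by
    intro n
    rw [← ofReal_measureReal]
    refine ENNReal.ofReal_le_ofReal ?_
    by_cases h : ∃ k, 2 ^ k = r + n
    · obtain ⟨k, hk⟩ := h
      refine (measureReal_mono (s₂ := {ω | ¬ Frame M ω x (2 ^ k)}) ?_ (measure_ne_top _ _)).trans
        ((frame_prob hM k x).trans ?_)
      · rintro ω ⟨k', h1, h2⟩
        obtain rfl : k' = k := Nat.pow_right_injective le_rfl (h1.trans hk.symm)
        exact h2
      · rw [hk, pow_add, one_div_pow (n := n)]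
        have : (0 : ℝ) ≤ (1 / 2) ^ r * (1 / 2 ^ n) := by positivity
        have e : (1 / 2 : ℝ) ^ r / 2 / 2 ^ n = 1 / 2 * ((1 / 2) ^ r * (1 / 2 ^ n)) := by ring
        linarith
    · have : {ω | ∃ k, 2 ^ k = r + n ∧ ¬ Frame M ω x (2 ^ k)} = ∅ := by
        ext ω; simp only [Set.mem_ofPred_eq, Set.mem_empty_iff_false, iff_false]
        rintro ⟨k, h1, _⟩; exact h ⟨k, h1⟩
      rw [this, measureReal_empty]; positivity
  have := ((measure_mono sub).trans (measure_iUnion_le _)).trans (ENNReal.tsum_le_tsum hb)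
  rw [← ENNReal.ofReal_tsum_of_nonneg (fun n => by positivity) (summable_geometric_two' _),
    tsum_geometric_two'] at this
  exact ENNReal.toReal_le_of_le_ofReal (by positivity) this

end Pool.Agent.P.MP_dcd5d0_pr.NM
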