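import Pool.Agent.P.MP_dcd5d0_pr.NM.LowT

/-! The capped field has the same time constant; norm properties. -/

set_option autoImplicit false

open MeasureTheory Finset Filter Topology

namespace Pool.Agent.P.MP_dcd5d0_pr.NM

lemma cmp_W {M : ℝ} (hM : 0 < M) {ρ : ℕ} {ω : Om} {x y : V} (hx : Reg M ω x ρ)
    (hy : Reg M ω y ρ) : T ω x y ≤ T (Phi M ω) x y
      + 2 * ∑ z ∈ box (14 * ρ + 7), T ω x (x + z) + 2 * ∑ z ∈ box (14 * ρ + 7), T ω y (y + z) := by
  obtain ⟨o, g, n⟩ := hx.near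
  obtain ⟨o', g', n'⟩ := hy.near
  have key : ∀ x o : V, ‖o - x‖ ≤ 14 * ρ + 7 →
      T ω x o ≤ ∑ z ∈ box (14 * ρ + 7), T ω x (x + z) := fun x o h => by
    have := single_le_sum (f := fun z => T ω x (x + z)) (fun _ _ => T_nonneg _ _ _)
      (mem_box.2 (show ‖o - x‖ ≤ ((14 * ρ + 7 : ℕ) : ℝ) by exact_mod_cast h))
    simpa using this
  linarith [key x o n, key y o' n', bypass hM g g', T_Phi_le (M := M) (ω := ω) x o,
    T_Phi_le (M := M) (ω := ω) y o', T_tri ω x o y, T_tri ω o o' y, T_symm ω o' y,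
    T_tri (Phi M ω) o x o', T_tri (Phi M ω) x y o', T_symm (Phi M ω) o x]

namespace Fld

/-- `g` is the limit in probability of the rescaled passage times of the capped field -/
def IsTC (F : Fld) (g : (Fin 2 → ℝ) → ℝ) : Prop :=
  ∀ x : Fin 2 → ℝ, ∀ ε : ℝ, 0 < ε →
    Tendsto (fun n : ℕ => F.Pm {ω | ε < |T ω 0 (rd ((n : ℝ) • x)) / n - g x|}) atTop (𝓝 0)

variable {F : Fld} {g : (Fin 2 → ℝ) → ℝ}

lemma isTC (H : MP_dcd5d0_pr.IsTC F.ν g) : F.IsTC g := by
  intro x ε hε
  have h1 := (ENNReal.tendsto_toReal ENNReal.zero_ne_top).comp (H x (ε / 2) (by positivity))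
  suffices h : Tendsto (fun n : ℕ => F.Pm.real {ω | ε < |T ω 0 (rd ((n : ℝ) • x)) / n - g x|})
      atTop (𝓝 0) by
    simpa using ENNReal.tendsto_ofReal h
  refine tendsto_order.2 ⟨fun a ha => Eventually.of_forall fun n =>
    ha.trans_le measureReal_nonneg, fun η hη => ?_⟩
  obtain ⟨ρ, hρ⟩ := exists_pow_lt_of_lt_one (show 0 < η / 5 by positivity)
    (show (1 / 2 : ℝ) < 1 by norm_num)
  set W : V → Om → ℝ := fun y ω => ∑ z ∈ box (14 * ρ + 7), T ω y (y + z) with hW
  have mW : ∀ y (c : ℝ), MeasurableSet {ω | c < W y ω} := fun y c =>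
    measurableSet_lt measurable_const (Finset.measurable_sum _ fun _ _ => T_meas _ _)
  have h2 := tendsto_measure_iInter_atTop (μ := PP Ed F.ν)
    (s := fun n : ℕ => {ω | ε / 8 * n < W 0 ω}) (fun n => (mW _ _).nullMeasurableSet)
    (fun a b h ω hω => lt_of_le_of_lt (mul_le_mul_of_nonneg_left (Nat.cast_le.2 h)
      (show 0 ≤ ε / 8 by positivity)) hω) ⟨0, measure_ne_top _ _⟩
  have h3 : ⋂ n : ℕ, {ω | ε / 8 * n < W 0 ω} = ∅ := by
    refine Set.eq_empty_of_forall_notMem fun ω h => ?_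
    obtain ⟨n, hn⟩ := exists_nat_ge (W 0 ω / (ε / 8))
    rw [div_le_iff₀' (by positivity)] at hn
    exact absurd (Set.mem_iInter.1 h n) (not_lt.2 hn)
  rw [h3, measure_empty] at h2
  have h4 := (ENNReal.tendsto_toReal ENNReal.zero_ne_top).comp h2
  filter_upwards [h1.eventually (gt_mem_nhds (show _ < η / 5 by simpa using hη)),
    h4.eventually (gt_mem_nhds (show _ < η / 5 by simpa using hη)), eventually_gt_atTop 0]
    with n a1 a2 n0
  set y := rd ((n : ℝ) • x) with hy
  have n1 : (0 : ℝ) < n := by exact_mod_cast n0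
  have a3 : (PP Ed F.ν).real {ω | ε / 8 * n < W y ω} = (PP Ed F.ν).real {ω | ε / 8 * n < W 0 ω} := by
    rw [← (SC.sh_mp F.ν y).measureReal_preimage (mW 0 _).nullMeasurableSet]
    simp [hW, SC.T_sh, add_comm]
  rw [F.Pm_real (measurableSet_lt measurable_const (((T_meas _ _).div_const _).sub_const _).abs)]
  have sub : {ω | Phi F.M0 ω ∈ {ω | ε < |T ω 0 y / n - g x|}} ⊆
      ((({ω | ε / 2 < |T ω 0 y / n - g x|} ∪ {ω | ¬ Reg F.M0 ω 0 ρ}) ∪ {ω | ¬ Reg F.M0 ω y ρ}) ∪
        {ω | ε / 8 * n < W 0 ω}) ∪ {ω | ε / 8 * n < W y ω} := by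
    intro ω hω
    by_contra c
    simp only [Set.mem_union, Set.mem_ofPred_eq, not_or, not_not, not_lt] at c hω
    obtain ⟨⟨⟨⟨c1, c2⟩, c3⟩, c4⟩, c5⟩ := c
    have b1 := cmp_W F.M_pos c2 c3
    have b2 := div_le_div_of_nonneg_right (T_Phi_le (M := F.M0) (ω := ω) 0 y) n1.le
    have b3 : T ω 0 y / n ≤ T (Phi F.M0 ω) 0 y / n + ε / 2 := by
      rw [div_add' _ _ _ n1.ne']
      exact div_le_div_of_nonneg_right (by linarith) n1.le
    rw [abs_le] at c1
    exact absurd hω (not_lt.2 (abs_le.2 ⟨by linarith [c1.1], by linarith [c1.2]⟩))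
  refine lt_of_le_of_lt ((measureReal_mono sub (measure_ne_top _ _)).trans
    ((measureReal_union_le _ _).trans (add_le_add ((measureReal_union_le _ _).trans (add_le_add
    ((measureReal_union_le _ _).trans (add_le_add ((measureReal_union_le _ _).trans (add_le_add
    le_rfl (reg_prob F.hM' ρ 0))) (reg_prob F.hM' ρ y))) le_rfl)) a3.le))) ?_
  simp only [Function.comp, ← measureReal_def] at a1 a2
  linarith

lemma IsTC.nat (H : F.IsTC g) (x : Fin 2 → ℝ) :
    Tendsto (fun n : ℕ => F.hh (rd ((n : ℝ) • x)) / n) atTop (𝓝 (g x)) := by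
  have := mean_of_prob (P := F.Pm) (fun n ω => T ω 0 (rd ((n : ℝ) • x)) / n)
    (fun n => (T_meas _ _).div_const _) (fun n => (F.T_int _ _).div_const _)
    (fun n => by simp only [div_pow]; exact (F.T_sq _ _).1.div_const _)
    (4 * (‖x‖ + 1) ^ 2 * F.m2) (g x) (fun n => by
      simp only [div_pow]
      rw [integral_div]
      have hm := F.m2_nonneg
      rcases Nat.eq_zero_or_pos n with rfl | hn
      · simp only [Nat.cast_zero, ne_eq, OfNat.ofNat_ne_zero, not_false_eq_true, zero_pow, div_zero]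
        positivity
      · have hn1 : (1 : ℝ) ≤ n := by exact_mod_cast hn
        rw [div_le_iff₀ (by positivity)]
        refine (F.T_sq _ _).2.1.trans ?_
        have a1 : ‖rd ((n : ℝ) • x) - 0‖ ≤ (‖x‖ + 1) * n := by
          rw [sub_zero]
          refine (norm_rd _).trans ?_
          rw [norm_smul, Real.norm_natCast]; linarith
        have a2 := pow_le_pow_left₀ (norm_nonneg _) a1 2
        calc _ ≤ 4 * ((‖x‖ + 1) * n) ^ 2 * F.m2 := by gcongr
          _ = _ := by ring) (H x)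
  simpa only [integral_div, hh] using this

lemma IsTC.real (H : F.IsTC g) (x : Fin 2 → ℝ) :
    Tendsto (fun t : ℝ => F.hh (rd (t • x)) / t) atTop (𝓝 (g x)) := by
  have h1 := (H.nat x).comp (tendsto_nat_floor_atTop (α := ℝ))
  have h2 := h1.mul (tendsto_nat_floor_div_atTop (R := ℝ))
  have h3 : Tendsto (fun t : ℝ => (F.hh (rd (t • x)) - F.hh (rd ((⌊t⌋₊ : ℝ) • x))) / t) atTop
      (𝓝 0) := by
    refine squeeze_zero_norm' (a := fun t => F.m1 * (‖x‖ + 1) / t) ?_
      (tendsto_const_nhds.div_atTop tendsto_id)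
    filter_upwards [eventually_gt_atTop 0] with t ht
    rw [norm_div, Real.norm_eq_abs, Real.norm_eq_abs, abs_of_pos ht]
    refine div_le_div_of_nonneg_right ?_ ht.le
    have a0 : ‖t • x - (⌊t⌋₊ : ℝ) • x‖ ≤ ‖x‖ := by
      rw [← sub_smul, norm_smul, Real.norm_eq_abs]
      refine mul_le_of_le_one_left (norm_nonneg _) ?_
      have := Nat.floor_le ht.le
      have := Nat.lt_floor_add_one t
      rw [abs_le]; constructor <;> linarith
    have a1 := mul_le_mul_of_nonneg_left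
      ((norm_rd_sub (t • x) ((⌊t⌋₊ : ℝ) • x)).trans (add_le_add a0 le_rfl)) (F.m1_pos).le
    have a2 := F.hh_lip (rd (t • x)) (rd ((⌊t⌋₊ : ℝ) • x))
    have a3 := F.hh_lip (rd ((⌊t⌋₊ : ℝ) • x)) (rd (t • x))
    rw [norm_sub_rev] at a3
    rw [abs_le]; constructor <;> linarith
  have h4 := h2.add h3
  rw [mul_one, add_zero] at h4
  refine h4.congr' ?_
  filter_upwards [eventually_ge_atTop 1] with t ht
  have : (0 : ℝ) < ⌊t⌋₊ := by exact_mod_cast Nat.floor_pos.2 ht
  simp only [Function.comp]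
  field_simp
  ring

lemma IsTC.add (H : F.IsTC g) (x y : Fin 2 → ℝ) :
    g (x + y) ≤ g x + g y := by
  have h := ((H.real x).add (H.real y)).add
    (tendsto_const_nhds (x := F.m1 * 2).div_atTop tendsto_id)
  rw [add_zero] at h
  refine le_of_tendsto_of_tendsto (H.real (x + y)) h ?_
  filter_upwards [eventually_gt_atTop 0] with t ht
  simp only [id]
  rw [← add_div, ← add_div]
  refine div_le_div_of_nonneg_right ?_ ht.le
  have a1 := F.hh_lip (rd (t • x + t • y)) (rd (t • x) + rd (t • y))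
  have a2 := F.hh_add (rd (t • x)) (rd (t • y))
  have a3 := mul_le_mul_of_nonneg_left (norm_rd_add (t • x) (t • y)) (F.m1_pos).le
  rw [smul_add]; linarith

lemma IsTC.smul (H : F.IsTC g) {a : ℝ} (ha : 0 < a)
    (x : Fin 2 → ℝ) : g (a • x) = a * g x := by
  have h := ((H.real x).comp (tendsto_id.atTop_mul_const ha)).const_mul a
  refine tendsto_nhds_unique (H.real (a • x)) (h.congr' ?_)
  filter_upwards [eventually_gt_atTop 0] with t ht
  simp only [Function.comp, id, smul_smul]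
  field_simp

lemma IsTC.le_hh (H : F.IsTC g) (z : V) :
    g (fun i => (z i : ℝ)) ≤ F.hh z := by
  have key : ∀ n : ℕ, F.hh (n • z) ≤ n * F.hh z := by
    intro n
    induction n with
    | zero => simpa using F.hh_le 0
    | succ n ih =>
      rw [succ_nsmul]; push_cast
      linarith [F.hh_add (n • z) z]
  refine le_of_tendsto (H.nat _) ?_
  filter_upwards [eventually_gt_atTop 0] with n hn
  have : rd ((n : ℝ) • fun i => (z i : ℝ)) = n • z := by
    ext i
    simp only [rd, Pi.smul_apply, smul_eq_mul, nsmul_eq_mul]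
    rw [← Int.cast_natCast (R := ℝ), ← Int.cast_mul, round_intCast]
  rw [this, div_le_iff₀ (by exact_mod_cast hn)]
  linarith [key n]

lemma IsTC.le_norm (H : F.IsTC g) (x : Fin 2 → ℝ) :
    g x ≤ F.m1 * ‖x‖ := by
  have h := (tendsto_const_nhds (x := F.m1 * ‖x‖) (f := atTop)).add
    (tendsto_const_nhds (x := F.m1).div_atTop (tendsto_id (α := ℝ)))
  rw [add_zero] at h
  refine le_of_tendsto_of_tendsto (H.real x) h ?_
  filter_upwards [eventually_gt_atTop 0] with t ht
  simp only [id]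
  rw [div_le_iff₀ ht]
  have a1 := F.hh_le (rd (t • x))
  have a2 := mul_le_mul_of_nonneg_left (norm_rd (t • x)) (F.m1_pos).le
  rw [norm_smul, Real.norm_eq_abs, abs_of_pos ht] at a2
  have : (F.m1 * ‖x‖ + F.m1 / t) * t = F.m1 * (t * ‖x‖ + 1) := by field_simp
  linarith

lemma hh_coer (F : Fld) (z : V) : F.r2 / 4 * ‖z‖ ≤ F.hh z := by
  have hr0 := F.r2_pos.le
  set r := F.r2 with hrr
  rcases eq_or_lt_of_le (norm_nonneg z) with h | h
  · rw [← h, mul_zero]; exact F.hh_nonneg z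
  set k := ⌈‖z‖⌉₊ with hk
  have hk1 : 1 ≤ k := Nat.ceil_pos.2 h
  have hk2 : ‖z‖ ≤ k := Nat.le_ceil _
  have h1 := markov1 (P := F.Pm) (F.T_int 0 z) (fun ω => T_nonneg ω 0 z) (a := r * k / 2)
    (by positivity) (Bad := BadP r 0 k) (fun ω hω => by
      by_contra hc
      obtain ⟨j, σ, e1, e2, e3⟩ := exists_trail_lt (not_le.1 hc)
      have e4 := norm_pos_sub0 0 σ j
      rw [e1, sub_zero] at e4
      have := long_trail hr0 hω e2 (Nat.ceil_le.2 e4)
      linarith)
  have h2 := F.peierls 0 k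
  have h3 : Real.exp (-k) ≤ 1 / 2 := by
    have a0 : (1 : ℝ) ≤ k := by exact_mod_cast hk1
    have a1 := Real.add_one_le_exp k
    rw [Real.exp_neg, inv_le_comm₀ (Real.exp_pos _) (by norm_num)]; linarith
  have h4 : r * k / 2 * (1 / 2) ≤ r * k / 2 * (1 - F.Pm.real (BadP r 0 k)) :=
    mul_le_mul_of_nonneg_left (by linarith) (by positivity)
  have h5 := mul_le_mul_of_nonneg_left hk2 hr0
  unfold hh
  linarith

lemma IsTC.coer (H : F.IsTC g) (x : Fin 2 → ℝ) : F.r2 / 4 * ‖x‖ ≤ g x := by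
  have hr0 := F.r2_pos.le
  set r := F.r2 with hrr
  have h := (tendsto_const_nhds (x := r / 4 * ‖x‖) (f := atTop)).sub
    (tendsto_const_nhds (x := r / 4).div_atTop (tendsto_id (α := ℝ)))
  rw [sub_zero] at h
  refine le_of_tendsto_of_tendsto h (H.real x) ?_
  filter_upwards [eventually_gt_atTop 0] with t ht
  simp only [id]
  rw [le_div_iff₀ ht]
  have a1 := F.hh_coer (rd (t • x))
  have a2 : ‖t • x‖ ≤ ‖rd (t • x)‖ + 1 := by
    rw [pi_norm_le_iff_of_nonneg (by positivity)]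
    intro i
    have b1 := norm_le_pi_norm (rd (t • x)) i
    rw [Int.norm_eq_abs] at b1
    have b2 := rd_close (t • x) i
    have b3 := abs_sub_abs_le_abs_sub ((t • x) i) (rd (t • x) i)
    rw [abs_sub_comm] at b3
    rw [Real.norm_eq_abs]
    linarith
  rw [norm_smul, Real.norm_eq_abs, abs_of_pos ht] at a2
  have a3 := mul_le_mul_of_nonneg_left a2 (show 0 ≤ r / 4 by positivity)
  have : (r / 4 * ‖x‖ - r / 4 / t) * t = r / 4 * (t * ‖x‖) - r / 4 := by field_simp
  linarith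

end Fld

end Pool.Agent.P.MP_dcd5d0_pr.NM
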