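import Pool.Agent.P.MP_dcd5d0_pr.Cross
import Pool.Agent.P.MP_dcd5d0_pr.Tail

/-! Reversal of walks, white walks inside a set, crossings of rectangles. -/

set_option autoImplicit false

open Finset

namespace Pool.Agent.P.MP_dcd5d0_pr.NM

/-- the reversed step sequence -/
def rv (σ : ℕ → Dir) (k : ℕ) : ℕ → Dir := fun j => ((σ (k - 1 - j)).1, !(σ (k - 1 - j)).2)

lemma stp_not (a : Dir) : stp (a.1, !a.2) = -stp a := by
  obtain ⟨i, b⟩ := a
  cases b <;> simp [stp]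

lemma pos_rv (x : V) (σ : ℕ → Dir) (k : ℕ) :
    ∀ j ≤ k, pos (pos x σ k) (rv σ k) j = pos x σ (k - j) := by
  intro j
  induction j with
  | zero => simp
  | succ j ih =>
    intro hj
    rw [pos_succ, ih (by omega)]
    have e : k - j = (k - (j + 1)) + 1 := by omega
    have e2 : k - 1 - j = k - (j + 1) := by omega
    rw [e, pos_succ]
    unfold rv
    rw [stp_not, e2]; abel

lemma ed_rv (x : V) (σ : ℕ → Dir) (k j : ℕ) (hj : j < k) :
    ed (pos x σ k) (rv σ k) j = ed x σ (k - 1 - j) := by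
  unfold ed
  rw [pos_rv x σ k j hj.le, pos_rv x σ k (j + 1) hj]
  have e : k - j = (k - 1 - j) + 1 := by omega
  have e2 : k - (j + 1) = k - 1 - j := by omega
  rw [e, e2]
  unfold rv
  cases h : (σ (k - 1 - j)).2 <;> simp

lemma tm_rv (ω : Om) (x : V) (σ : ℕ → Dir) (k : ℕ) :
    tm ω (pos x σ k) (rv σ k) 0 k = tm ω x σ 0 k := by
  unfold tm
  rw [← range_eq_Ico, ← sum_range_reflect (fun j => max (ω (ed x σ j)) 0) k]
  exact sum_congr rfl fun j hj => by rw [ed_rv x σ k j (mem_range.1 hj)]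

lemma T_symm (ω : Om) (x y : V) : T ω x y = T ω y x := by
  have key : ∀ x y, T ω x y ≤ T ω y x := by
    intro x y
    refine le_T fun k σ h => ?_
    have := T_le0 ω (x := pos y σ k) (y := y) (σ := rv σ k) (k := k) (by rw [pos_rv y σ k k le_rfl]; simp)
    rwa [tm_rv, h] at this
  exact le_antisymm (key x y) (key y x)

lemma T_self (ω : Om) (x : V) : T ω x x = 0 :=
  le_antisymm (by simpa [tm] using T_le0 ω (x := x) (y := x) (σ := fun _ => default) (k := 0) (by simp))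
    (T_nonneg ω x x)

/-- passage time between two points of a walk, in any order -/
lemma T_le_any (ω : Om) (x : V) (σ : ℕ → Dir) {a b k : ℕ} (ha : a ≤ k) (hb : b ≤ k) :
    T ω (pos x σ a) (pos x σ b) ≤ tm ω x σ 0 k := by
  rcases le_total a b with h | h
  · exact (T_le ω x σ h).trans (tm_sub ω x σ (Nat.zero_le _) hb)
  · rw [T_symm]; exact (T_le ω x σ h).trans (tm_sub ω x σ (Nat.zero_le _) ha)

lemma ed_cat (x : V) (σ : ℕ → Dir) (k : ℕ) (σ' : ℕ → Dir) (j : ℕ) :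
    ed x (cat σ k σ') (k + j) = ed (pos x σ k) σ' j := by
  rw [← ed_shift, cat_right, pos_congr x (cat_left σ k σ') le_rfl]

/-- joined inside `U` by a walk of time at most `t` -/
def Jn (ω : Om) (U : Set V) (a b : V) (t : ℝ) : Prop :=
  ∃ (k : ℕ) (σ : ℕ → Dir), pos a σ k = b ∧ (∀ j ≤ k, pos a σ j ∈ U) ∧ tm ω a σ 0 k ≤ t

/-- joined inside `U` by a walk with weights at most `M` -/
def Wk (M : ℝ) (ω : Om) (U : Set V) (a b : V) : Prop :=
  ∃ (k : ℕ) (σ : ℕ → Dir), pos a σ k = b ∧ (∀ j ≤ k, pos a σ j ∈ U) ∧ ∀ j < k, ω (ed a σ j) ≤ M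

variable {M : ℝ} {ω : Om} {U U' : Set V} {a b c : V} {t t' : ℝ}

lemma cat_mem {x : V} {σ σ' : ℕ → Dir} {k k' : ℕ} (h : ∀ j ≤ k, pos x σ j ∈ U)
    (h' : ∀ j ≤ k', pos (pos x σ k) σ' j ∈ U) : ∀ j ≤ k + k', pos x (cat σ k σ') j ∈ U := by
  intro j hj
  rcases le_total j k with h1 | h1
  · rw [pos_congr x (cat_left σ k σ') h1]; exact h j h1
  · obtain ⟨i, rfl⟩ := Nat.exists_eq_add_of_le h1
    rw [pos_cat]; exact h' i (by omega)

lemma Jn.refl (ha : a ∈ U) : Jn ω U a a 0 :=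
  ⟨0, fun _ => default, by simp, fun j hj => by rw [Nat.le_zero.1 hj]; simpa using ha, by simp [tm]⟩

lemma Jn.mono (h : Jn ω U a b t) (hU : U ⊆ U') (ht : t ≤ t') : Jn ω U' a b t' := by
  obtain ⟨k, σ, h1, h2, h3⟩ := h
  exact ⟨k, σ, h1, fun j hj => hU (h2 j hj), h3.trans ht⟩

lemma Jn.trans (h : Jn ω U a b t) (h' : Jn ω U b c t') : Jn ω U a c (t + t') := by
  obtain ⟨k, σ, h1, h2, h3⟩ := h
  obtain ⟨k', σ', h1', h2', h3'⟩ := h'
  subst h1
  exact ⟨k + k', cat σ k σ', by rw [pos_cat, h1'], cat_mem h2 h2', by rw [tm_cat]; linarith⟩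

lemma Jn.symm (h : Jn ω U a b t) : Jn ω U b a t := by
  obtain ⟨k, σ, h1, h2, h3⟩ := h
  subst h1
  refine ⟨k, rv σ k, by rw [pos_rv a σ k k le_rfl]; simp, fun j hj => ?_, by rwa [tm_rv]⟩
  rw [pos_rv a σ k j hj]; exact h2 _ (by omega)

lemma Jn.T_le (h : Jn ω U a b t) : T ω a b ≤ t := by
  obtain ⟨k, σ, h1, _, h3⟩ := h
  exact (T_le0 ω h1).trans h3

lemma Jn.sub {x : V} {σ : ℕ → Dir} {i j : ℕ} (hij : i ≤ j) (h : ∀ l, i ≤ l → l ≤ j → pos x σ l ∈ U) :
    Jn ω U (pos x σ i) (pos x σ j) (tm ω x σ i j) := by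
  obtain ⟨d, rfl⟩ := Nat.exists_eq_add_of_le hij
  refine ⟨d, fun l => σ (i + l), pos_shift x σ i d, fun l hl => ?_, by rw [tm_shift]⟩
  rw [pos_shift]; exact h _ (by omega) (by omega)

lemma Wk.refl (ha : a ∈ U) : Wk M ω U a a :=
  ⟨0, fun _ => default, by simp, fun j hj => by rw [Nat.le_zero.1 hj]; simpa using ha,
    fun j hj => absurd hj (by omega)⟩

lemma Wk.mono (h : Wk M ω U a b) (hU : U ⊆ U') : Wk M ω U' a b := by
  obtain ⟨k, σ, h1, h2, h3⟩ := h
  exact ⟨k, σ, h1, fun j hj => hU (h2 j hj), h3⟩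

lemma Wk.left (h : Wk M ω U a b) : a ∈ U := by
  obtain ⟨k, σ, _, h2, _⟩ := h
  simpa using h2 0 (Nat.zero_le _)

lemma Wk.right (h : Wk M ω U a b) : b ∈ U := by
  obtain ⟨k, σ, h1, h2, _⟩ := h
  exact h1 ▸ h2 k le_rfl

lemma Wk.trans (h : Wk M ω U a b) (h' : Wk M ω U b c) : Wk M ω U a c := by
  obtain ⟨k, σ, h1, h2, h3⟩ := h
  obtain ⟨k', σ', h1', h2', h3'⟩ := h'
  subst h1
  refine ⟨k + k', cat σ k σ', by rw [pos_cat, h1'], cat_mem h2 h2', fun j hj => ?_⟩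
  rcases lt_or_ge j k with h1 | h1
  · rw [ed_congr a (cat_left σ k σ') h1]; exact h3 j h1
  · obtain ⟨i, rfl⟩ := Nat.exists_eq_add_of_le h1
    rw [ed_cat]; exact h3' i (by omega)

lemma Wk.symm (h : Wk M ω U a b) : Wk M ω U b a := by
  obtain ⟨k, σ, h1, h2, h3⟩ := h
  subst h1
  refine ⟨k, rv σ k, by rw [pos_rv a σ k k le_rfl]; simp, fun j hj => ?_, fun j hj => ?_⟩
  · rw [pos_rv a σ k j hj]; exact h2 _ (by omega)
  · rw [ed_rv a σ k j hj]; exact h3 _ (by omega)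

lemma Wk.init {x : V} {σ : ℕ → Dir} {j : ℕ} (h : ∀ l ≤ j, pos x σ l ∈ U)
    (hw : ∀ l < j, ω (ed x σ l) ≤ M) : Wk M ω U x (pos x σ j) := ⟨j, σ, rfl, h, hw⟩

lemma Wk.short {S : Finset V} (h : Wk M ω U a b) (hS : ∀ z ∈ U, z ∈ S) (hM : 0 ≤ M) :
    Jn ω U a b (M * S.card) := by
  obtain ⟨k, σ, h1, h2, h3⟩ := h
  induction k using Nat.strong_induction_on generalizing σ with
  | _ k ih =>
    by_cases hk : k ≤ S.card
    · refine ⟨k, σ, h1, h2, ?_⟩
      have : tm ω a σ 0 k ≤ (Ico 0 k).card • M :=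
        sum_le_card_nsmul _ _ _ fun j hj => max_le (h3 j (mem_Ico.1 hj).2) hM
      simp only [Nat.card_Ico, Nat.sub_zero, nsmul_eq_mul] at this
      have h4 : (k : ℝ) ≤ S.card := by exact_mod_cast hk
      nlinarith
    · obtain ⟨i, hi, j, hj, hne, he⟩ := exists_ne_map_eq_of_card_lt_of_maps_to
        (s := range (k + 1)) (t := S) (by simp; omega) (f := pos a σ)
        (fun j hj => hS _ (h2 j (by have := mem_range.1 (mem_coe.1 hj); omega)))
      have key : ∀ i j, i < j → j ≤ k → pos a σ i = pos a σ j → Jn ω U a b (M * S.card) := by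
        intro i j hij hjk he
        obtain ⟨d, rfl⟩ := Nat.exists_eq_add_of_le hjk
        refine ih (i + d) (by omega) (cat σ i fun l => σ (j + l)) (by rw [pos_cat, he, pos_shift, h1])
          (cat_mem (fun l hl => h2 l (by omega)) fun l hl => ?_) fun l hl => ?_
        · rw [he, pos_shift]; exact h2 _ (by omega)
        · rcases lt_or_ge l i with h4 | h4
          · rw [ed_congr a (cat_left σ i _) h4]; exact h3 l (by omega)
          · obtain ⟨m, rfl⟩ := Nat.exists_eq_add_of_le h4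
            rw [ed_cat, he, ed_shift]; exact h3 _ (by omega)
      have hi' := mem_range.1 hi
      have hj' := mem_range.1 hj
      rcases lt_or_gt_of_ne hne with h4 | h4
      · exact key i j h4 (by omega) he
      · exact key j i h4 (by omega) he.symm

lemma stp_abs (a : Dir) (i : Fin 2) : -1 ≤ stp a i ∧ stp a i ≤ 1 := by
  have := stp_cases a
  fin_cases i
  · show -1 ≤ stp a 0 ∧ stp a 0 ≤ 1; omega
  · show -1 ≤ stp a 1 ∧ stp a 1 ≤ 1; omega

lemma pos_step (x : V) (σ : ℕ → Dir) (j : ℕ) (i : Fin 2) :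
    pos x σ j i - 1 ≤ pos x σ (j + 1) i ∧ pos x σ (j + 1) i ≤ pos x σ j i + 1 := by
  have := stp_abs (σ j) i
  rw [pos_succ, Pi.add_apply]; omega

/-- first exit from a set -/
lemma first_exit {x : V} {σ : ℕ → Dir} {k : ℕ} (hx : x ∈ U) (hk : pos x σ k ∉ U) :
    ∃ j < k, (∀ l ≤ j, pos x σ l ∈ U) ∧ pos x σ (j + 1) ∉ U := by
  induction k with
  | zero => exact absurd hx (by simpa using hk)
  | succ k ih =>
    by_cases h : ∀ l ≤ k, pos x σ l ∈ U
    · exact ⟨k, by omega, h, hk⟩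
    · push Not at h
      classical
      have hex : ∃ l, pos x σ l ∉ U := ⟨_, hk⟩
      have h0 := Nat.find_spec hex
      obtain ⟨l, hl, h1⟩ := h
      have h2 := Nat.find_min' hex h1
      obtain ⟨j, hj⟩ : ∃ j, Nat.find hex = j + 1 := by
        refine Nat.exists_eq_succ_of_ne_zero fun h3 => ?_
        rw [h3] at h0; exact h0 (by simpa using hx)
      refine ⟨j, by omega, fun l hl => ?_, hj ▸ h0⟩
      by_contra h3
      have := Nat.find_min' hex h3
      omega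

/-- the other coordinate -/
def ot (i : Fin 2) : Fin 2 := i + 1

@[simp] lemma ot_ot (i : Fin 2) : ot (ot i) = i := by fin_cases i <;> rfl
@[simp] lemma ot_zero : ot 0 = 1 := rfl
@[simp] lemma ot_one : ot 1 = 0 := rfl
lemma ot_ne (i : Fin 2) : ot i ≠ i := by fin_cases i <;> decide

/-- a coordinate as a real additive map -/
def crd (i : Fin 2) : V →+ ℝ where
  toFun z := (z i : ℝ)
  map_zero' := by simp
  map_add' := by simp

/-- one extra step at both ends -/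
def pad (i : Fin 2) (σ : ℕ → Dir) (m : ℕ) : ℕ → Dir :=
  cat (fun _ => (i, true)) 1 (cat σ m fun _ => (i, true))

lemma pos_pad (i : Fin 2) (x : V) (σ : ℕ → Dir) (m k : ℕ) (hk : k ≤ m) :
    pos (x - Pi.single i 1) (pad i σ m) (k + 1) = pos x σ k := by
  unfold pad
  rw [add_comm k 1, pos_cat, pos_congr _ (cat_left σ m _) hk]
  congr 1
  simp [pos, stp]

lemma pos_pad_end (i : Fin 2) (x : V) (σ : ℕ → Dir) (m : ℕ) :
    pos (x - Pi.single i 1) (pad i σ m) (m + 2) = pos x σ m + Pi.single i 1 := by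
  rw [pos_succ, pos_pad i x σ m m le_rfl]
  congr 1
  simp [pad, cat, stp]

lemma pad_cases (i : Fin 2) (x : V) (σ : ℕ → Dir) (m k : ℕ) (hk : k ≤ m + 2) :
    pos (x - Pi.single i 1) (pad i σ m) k = x - Pi.single i 1 ∨
    pos (x - Pi.single i 1) (pad i σ m) k = pos x σ m + Pi.single i 1 ∨
    ∃ l ≤ m, pos (x - Pi.single i 1) (pad i σ m) k = pos x σ l := by
  rcases Nat.eq_zero_or_pos k with rfl | h
  · left; simp
  · by_cases h2 : k = m + 2
    · right; left; rw [h2, pos_pad_end]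
    · obtain ⟨l, rfl⟩ := Nat.exists_eq_succ_of_ne_zero h.ne'
      right; right; exact ⟨l, by omega, pos_pad i x σ m l (by omega)⟩

theorem crossN (i : Fin 2) (x x' : V) (σ σ' : ℕ → Dir) (m n : ℕ)
    (ha : ∀ l ≤ n, x i ≤ pos x' σ' l i ∧ pos x' σ' l i ≤ pos x σ m i)
    (hb : ∀ k ≤ m, x' (ot i) ≤ pos x σ k (ot i) ∧ pos x σ k (ot i) ≤ pos x' σ' n (ot i)) :
    ∃ k ≤ m, ∃ l ≤ n, pos x σ k = pos x' σ' l := by
  have s1 : (Pi.single i 1 : V) (ot i) = 0 := Pi.single_eq_of_ne (ot_ne i) 1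
  have s2 : (Pi.single (ot i) 1 : V) i = 0 := Pi.single_eq_of_ne (ot_ne i).symm 1
  have a0 := ha 0 (Nat.zero_le _)
  have an := ha n le_rfl
  have b0 := hb 0 (Nat.zero_le _)
  have bm := hb m le_rfl
  rw [pos_zero] at a0 b0
  have hA : ∀ l ≤ n + 2, x i ≤ pos (x' - Pi.single (ot i) 1) (pad (ot i) σ' n) l i ∧
      pos (x' - Pi.single (ot i) 1) (pad (ot i) σ' n) l i ≤ pos x σ m i := by
    intro l hl
    rcases pad_cases (ot i) x' σ' n l hl with h | h | ⟨l', h1, h⟩ <;> rw [h]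
    · rw [Pi.sub_apply, s2]; omega
    · rw [Pi.add_apply, s2]; omega
    · exact ha l' h1
  have hB : ∀ k ≤ m + 2, x' (ot i) ≤ pos (x - Pi.single i 1) (pad i σ m) k (ot i) ∧
      pos (x - Pi.single i 1) (pad i σ m) k (ot i) ≤ pos x' σ' n (ot i) := by
    intro l hl
    rcases pad_cases i x σ m l hl with h | h | ⟨l', h1, h⟩ <;> rw [h]
    · rw [Pi.sub_apply, s1]; omega
    · rw [Pi.add_apply, s1]; omega
    · exact hb l' h1
  obtain ⟨k, hk, l, hl, he⟩ := crossing (crd i) (crd (ot i)) (Pi.single i 1) (Pi.single (ot i) 1)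
    (by intro z j; fin_cases i <;> fin_cases j <;> simp [crd])
    (x - Pi.single i 1) (x' - Pi.single (ot i) 1) (pad i σ m) (pad (ot i) σ' n) (m + 2) (n + 2)
    (fun l hl => by
      have := (hA l hl).1
      show (((x - Pi.single i 1 : V) i : ℤ) : ℝ) < ((_ : ℤ) : ℝ)
      rw [Int.cast_lt, Pi.sub_apply, Pi.single_eq_same]; omega)
    (fun l hl => by
      have := (hA l hl).2
      show ((_ : ℤ) : ℝ) < ((pos (x - Pi.single i 1) (pad i σ m) (m + 2) i : ℤ) : ℝ)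
      rw [Int.cast_lt, pos_pad_end, Pi.add_apply, Pi.single_eq_same]; omega)
    (fun l hl => by
      have := (hB l hl).1
      show (((x' - Pi.single (ot i) 1 : V) (ot i) : ℤ) : ℝ) < ((_ : ℤ) : ℝ)
      rw [Int.cast_lt, Pi.sub_apply, Pi.single_eq_same]; omega)
    (fun l hl => by
      have := (hB l hl).2
      show ((_ : ℤ) : ℝ) < ((pos (x' - Pi.single (ot i) 1) (pad (ot i) σ' n) (n + 2) (ot i) : ℤ) : ℝ)
      rw [Int.cast_lt, pos_pad_end, Pi.add_apply, Pi.single_eq_same]; omega)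
  have hA' := hA l hl
  have hB' := hB k hk
  rw [← he] at hA'
  rw [he] at hB'
  rcases pad_cases i x σ m k hk with h | h | ⟨k', h1, h⟩
  · rw [h, Pi.sub_apply, Pi.single_eq_same] at hA'; omega
  · rw [h, Pi.add_apply, Pi.single_eq_same] at hA'; omega
  rcases pad_cases (ot i) x' σ' n l hl with h' | h' | ⟨l', h1', h'⟩
  · rw [h', Pi.sub_apply, Pi.single_eq_same] at hB'; omega
  · rw [h', Pi.add_apply, Pi.single_eq_same] at hB'; omega
  exact ⟨k', h1, l', h1', by rw [← h, ← h', he]⟩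

/-- rectangle, long side in the coordinate `i` -/
def Rect (i : Fin 2) (a b c d : ℤ) : Set V :=
  {z | a ≤ z i ∧ z i ≤ b ∧ c ≤ z (ot i) ∧ z (ot i) ≤ d}

/-- a white crossing meets every transversal walk -/
lemma meet {i : Fin 2} {a b c d : ℤ} {x y : V} (h : Wk M ω (Rect i a b c d) x y) (hx : x i = a)
    (hy : y i = b) (p : V) (σ : ℕ → Dir) (k : ℕ) (h1 : ∀ l ≤ k, a ≤ pos p σ l i ∧ pos p σ l i ≤ b)
    (h2 : (p (ot i) ≤ c ∧ d ≤ pos p σ k (ot i)) ∨ (d ≤ p (ot i) ∧ pos p σ k (ot i) ≤ c)) :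
    ∃ j ≤ k, Wk M ω (Rect i a b c d) x (pos p σ j) := by
  have key : ∀ (p : V) (σ : ℕ → Dir), (∀ l ≤ k, a ≤ pos p σ l i ∧ pos p σ l i ≤ b) →
      p (ot i) ≤ c → d ≤ pos p σ k (ot i) → ∃ j ≤ k, Wk M ω (Rect i a b c d) x (pos p σ j) := by
    intro p σ h1 h2 h3
    obtain ⟨m, τ, e1, e2, e3⟩ := h
    obtain ⟨u, hu, j, hj, he⟩ := crossN i x p τ σ m k (fun l hl => by rw [hx, e1, hy]; exact h1 l hl)
      (fun l hl => ⟨h2.trans (e2 l hl).2.2.1, (e2 l hl).2.2.2.trans h3⟩)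
    exact ⟨j, hj, he ▸ Wk.init (fun l hl => e2 l (by omega)) fun l hl => e3 l (by omega)⟩
  rcases h2 with h2 | h2
  · exact key p σ h1 h2.1 h2.2
  · obtain ⟨j, hj, h3⟩ := key (pos p σ k) (rv σ k)
      (fun l hl => by rw [pos_rv p σ k l hl]; exact h1 _ (by omega)) h2.2
      (by rw [pos_rv p σ k k le_rfl]; simpa using h2.1)
    rw [pos_rv p σ k j hj] at h3
    exact ⟨k - j, by omega, h3⟩

end Pool.Agent.P.MP_dcd5d0_pr.NM
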